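import Mathlib

/-!
# Commutator identities in groups in which `(x y) ^ 4 = 1` for all involutions `x`, `y`
Used in `Results/MP_da62d3_al/TwoFourGroups.lean`.
-/

open scoped commutatorElement

namespace Pool.Agent.Lib.KFG

variable {G : Type*} [Group G]

theorem inv_eq {x : G} (h : x * x = 1) : x⁻¹ = x := inv_eq_of_mul_eq_one_right h

/-- the hypothesis on `G`, in the form in which it is used -/
def Hyp (G : Type*) [Group G] : Prop :=
  ∀ x y : G, x * x = 1 → y * y = 1 → x * y * x * y * (x * y * x * y) = 1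

theorem com_eq {x y : G} (hx : x * x = 1) (hy : y * y = 1) : ⁅x, y⁆ = x * y * x * y := by
  rw [commutatorElement_def, inv_eq hx, inv_eq hy]

theorem com_inv (H : Hyp G) {x y : G} (hx : x * x = 1) (hy : y * y = 1) :
    ⁅x, y⁆ * ⁅x, y⁆ = 1 := by
  rw [com_eq hx hy]
  exact H x y hx hy

theorem com_symm (H : Hyp G) {x y : G} (hx : x * x = 1) (hy : y * y = 1) :
    ⁅x, y⁆ = ⁅y, x⁆ := by
  rw [← inv_eq (com_inv H hx hy), commutatorElement_inv]

theorem com_right (H : Hyp G) {x y : G} (hx : x * x = 1) (hy : y * y = 1) :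
    Commute ⁅x, y⁆ y := by
  have h := com_symm H hx hy
  rw [com_eq hx hy, com_eq hy hx] at h
  rw [com_eq hx hy]
  show x * y * x * y * y = y * (x * y * x * y)
  calc x * y * x * y * y = x * y * x * (y * y) := by group
    _ = x * y * x := by rw [hy, mul_one]
    _ = (y * y) * (x * y * x) := by rw [hy, one_mul]
    _ = y * (y * x * y * x) := by group
    _ = y * (x * y * x * y) := by rw [h]

theorem com_left (H : Hyp G) {x y : G} (hx : x * x = 1) (hy : y * y = 1) :
    Commute ⁅x, y⁆ x := by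
  rw [com_symm H hx hy]
  exact com_right H hy hx

theorem conj_sq {x g : G} (hx : x * x = 1) (hg : g * g = 1) : x * g * x * (x * g * x) = 1 := by
  calc x * g * x * (x * g * x) = x * g * (x * x) * g * x := by group
    _ = x * (g * g) * x := by rw [hx]; group
    _ = 1 := by rw [hg, mul_one, hx]

theorem mul_sq {x y : G} (hx : x * x = 1) (hy : y * y = 1) (h : Commute x y) :
    x * y * (x * y) = 1 := by
  calc x * y * (x * y) = x * (y * x) * y := by group
    _ = x * (x * y) * y := by rw [h.eq]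
    _ = (x * x) * (y * y) := by group
    _ = 1 := by rw [hx, hy, one_mul]

/-- an involution commutes with its conjugates under involutions -/
theorem comm_conj (H : Hyp G) {x g : G} (hx : x * x = 1) (hg : g * g = 1) :
    Commute g (x * g * x) := by
  have h := com_symm H hx hg
  rw [com_eq hx hg, com_eq hg hx] at h
  show g * (x * g * x) = x * g * x * g
  rw [h]
  group

/-- conjugates of an involution under commuting involutions commute -/
theorem comm_conj2 (H : Hyp G) {x y g : G} (hx : x * x = 1) (hy : y * y = 1) (hxy : Commute x y)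
    (hg : g * g = 1) : Commute (x * g * x) (y * g * y) := by
  have h1 := comm_conj H (mul_sq hx hy hxy) hg
  have h2 := h1.map (MulAut.conj x).toMonoidHom
  have e1 : (MulAut.conj x).toMonoidHom g = x * g * x := by simp [inv_eq hx]
  have e2 : (MulAut.conj x).toMonoidHom (x * y * g * (x * y)) = y * g * y := by
    simp only [MulEquiv.coe_toMonoidHom, MulAut.conj_apply, inv_eq hx]
    calc x * (x * y * g * (x * y)) * x = (x * x) * y * g * (x * (y * x)) := by group
      _ = 1 * y * g * (x * (x * y)) := by rw [hx, hxy.symm.eq]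
      _ = y * g * (x * x * y) := by group
      _ = y * g * y := by rw [hx, one_mul]
  rw [e1, e2] at h2
  exact h2

/-- the key identity -/
theorem key (H : Hyp G) {p w p' w' : G} (hp : p * p = 1) (hw : w * w = 1) (hp' : p' * p' = 1)
    (hw' : w' * w' = 1) (h1 : Commute p p') (h2 : Commute w w')
    (h3 : Commute (p * w) (p' * w')) : ⁅w, p'⁆ = ⁅w', p⁆ := by
  have c1 := com_right H hw hp'
  have c2 := com_right H hw' hp
  have e1 : w * p' = ⁅w, p'⁆ * (p' * w) := by rw [commutatorElement_def]; group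
  have e2 : w' * p = ⁅w', p⁆ * (p * w') := by rw [commutatorElement_def]; group
  have l1 : p * w * (p' * w') = p * p' * (⁅w, p'⁆ * (w * w')) := by
    calc p * w * (p' * w') = p * (w * p') * w' := by group
      _ = p * (⁅w, p'⁆ * p') * w * w' := by rw [e1]; group
      _ = p * (p' * ⁅w, p'⁆) * w * w' := by rw [c1.eq]
      _ = p * p' * (⁅w, p'⁆ * (w * w')) := by group
  have l2 : p' * w' * (p * w) = p * p' * (⁅w', p⁆ * (w * w')) := by
    calc p' * w' * (p * w) = p' * (w' * p) * w := by group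
      _ = p' * (⁅w', p⁆ * p) * w' * w := by rw [e2]; group
      _ = p' * (p * ⁅w', p⁆) * w' * w := by rw [c2.eq]
      _ = (p' * p) * (⁅w', p⁆ * (w' * w)) := by group
      _ = p * p' * (⁅w', p⁆ * (w * w')) := by rw [h1.symm.eq, h2.symm.eq]
  have h := h3.eq
  rw [l1, l2] at h
  exact mul_right_cancel (mul_left_cancel h)

/-- the commutator of an involution with two commuting involutions -/
theorem triple (H : Hyp G) {t z u : G} (ht : t * t = 1) (hz : z * z = 1) (hu : u * u = 1)
    (htz : Commute t z) :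
    ⁅⁅t, u⁆, z⁆ = ⁅⁅z, u⁆, t⁆ ∧ Commute ⁅⁅t, u⁆, z⁆ u := by
  have form : ∀ t z : G, t * t = 1 → z * z = 1 → Commute t z →
      ⁅⁅t, u⁆, z⁆ = t * u * t * u * (z * u * z) * (t * z * u * (t * z)) := by
    intro t z ht hz htz
    rw [com_eq (com_inv H ht hu) hz, com_eq ht hu]
    have e : t * u * t * u = u * t * u * t := by
      have := com_symm H ht hu
      rwa [com_eq ht hu, com_eq hu ht] at this
    calc t * u * t * u * z * (t * u * t * u) * z
        = t * u * t * u * z * (u * t * u * t) * z := by rw [← e]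
      _ = t * u * t * u * z * u * (t * u) * (t * z) := by group
      _ = t * u * t * u * z * u * ((z * z) * t * u) * (t * z) := by rw [hz, one_mul]
      _ = t * u * t * u * z * u * (z * (z * t) * u) * (t * z) := by group
      _ = t * u * t * u * z * u * (z * (t * z) * u) * (t * z) := by rw [htz.eq]
      _ = t * u * t * u * (z * u * z) * (t * z * u * (t * z)) := by group
  have c1 : Commute u (t * u * t) := comm_conj H ht hu
  have c2 : Commute u (z * u * z) := comm_conj H hz hu
  have c3 : Commute u (t * z * u * (t * z)) := comm_conj H (mul_sq ht hz htz) hu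
  have c4 : Commute (t * u * t) (z * u * z) := comm_conj2 H ht hz htz hu
  have e1 := form t z ht hz htz
  have e2 := form z t hz ht htz.symm
  constructor
  · rw [e1, e2]
    have e3 : z * t = t * z := htz.symm.eq
    rw [e3]
    congr 1
    calc t * u * t * u * (z * u * z) = (t * u * t) * u * (z * u * z) := by group
      _ = u * (t * u * t) * (z * u * z) := by rw [c1.symm.eq]
      _ = u * ((t * u * t) * (z * u * z)) := by group
      _ = u * ((z * u * z) * (t * u * t)) := by rw [c4.eq]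
      _ = u * (z * u * z) * (t * u * t) := by group
      _ = (z * u * z) * u * (t * u * t) := by rw [c2.eq]
      _ = z * u * z * u * (t * u * t) := by group
  · rw [e1]
    have : t * u * t * u * (z * u * z) * (t * z * u * (t * z))
        = (t * u * t) * u * (z * u * z) * (t * z * u * (t * z)) := by group
    rw [this]
    exact ((c1.symm.mul_left (Commute.refl u)).mul_left c2.symm).mul_left c3.symm

/-- the conjugate of `g` under the involution `x` -/
def cj (x g : G) : G := x * g * x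

theorem cj_sq {x g : G} (hx : x * x = 1) (hg : g * g = 1) : cj x g * cj x g = 1 := conj_sq hx hg

theorem cj_mul {x g h : G} (hx : x * x = 1) : cj x (g * h) = cj x g * cj x h := by
  unfold cj
  calc x * (g * h) * x = x * g * 1 * h * x := by group
    _ = x * g * (x * x) * h * x := by rw [hx]
    _ = x * g * x * (x * h * x) := by group

theorem cj_cj {x y g : G} (hxy : Commute x y) : cj x (cj y g) = cj (x * y) g := by
  unfold cj
  calc x * (y * g * y) * x = x * y * g * (y * x) := by group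
    _ = x * y * g * (x * y) := by rw [hxy.symm.eq]

theorem cj_com {x g h : G} (hx : x * x = 1) : cj x ⁅g, h⁆ = ⁅cj x g, cj x h⁆ := by
  have e : ∀ g : G, cj x g = MulAut.conj x g := by
    intro g
    simp [cj, inv_eq hx]
  rw [e, e, e, map_commutatorElement]

/-- the commutator of a conjugate of `b` and a conjugate of `d` -/
def W (b d x y : G) : G := ⁅cj x b, cj y d⁆

def N (b d x y z : G) : G := ⁅W b d x y, cj z b⁆

/-- the standing assumptions: `A` is elementary abelian, `b`, `d` are commuting involutions -/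
structure Std (A : Subgroup G) (b d : G) : Prop where
  H : Hyp G
  sq : ∀ x ∈ A, x * x = 1
  hb : b * b = 1
  hd : d * d = 1
  hbd : Commute b d

namespace Std

variable {A : Subgroup G} {b d : G}

theorem symm (S : Std A b d) : Std A d b := ⟨S.H, S.sq, S.hd, S.hb, S.hbd.symm⟩

theorem comm (S : Std A b d) {x y : G} (hx : x ∈ A) (hy : y ∈ A) : Commute x y := by
  have h := S.sq _ (A.mul_mem hx hy)
  have h1 := inv_eq h
  rw [mul_inv_rev, inv_eq (S.sq x hx), inv_eq (S.sq y hy)] at h1
  exact h1.symm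

theorem bb (S : Std A b d) {x y : G} (hx : x ∈ A) (hy : y ∈ A) : Commute (cj x b) (cj y b) :=
  comm_conj2 S.H (S.sq x hx) (S.sq y hy) (S.comm hx hy) S.hb

theorem bd (S : Std A b d) {x : G} (hx : x ∈ A) : Commute (cj x b) (cj x d) := by
  show cj x b * cj x d = cj x d * cj x b
  rw [← cj_mul (S.sq x hx), ← cj_mul (S.sq x hx), S.hbd.eq]

theorem W_symm (S : Std A b d) {x y : G} (hx : x ∈ A) (hy : y ∈ A) : W b d x y = W b d y x := by
  have h3 : Commute (cj x b * cj x d) (cj y b * cj y d) := by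
    rw [← cj_mul (S.sq x hx), ← cj_mul (S.sq y hy)]
    exact comm_conj2 S.H (S.sq x hx) (S.sq y hy) (S.comm hx hy) (mul_sq S.hb S.hd S.hbd)
  have h := key S.H (cj_sq (S.sq x hx) S.hb) (cj_sq (S.sq x hx) S.hd) (cj_sq (S.sq y hy) S.hb)
    (cj_sq (S.sq y hy) S.hd) (S.bb hx hy) (S.symm.bb hx hy) h3
  unfold W
  rw [com_symm S.H (cj_sq (S.sq x hx) S.hb) (cj_sq (S.sq y hy) S.hd), ← h,
    com_symm S.H (cj_sq (S.sq x hx) S.hd) (cj_sq (S.sq y hy) S.hb)]

theorem W_swap (S : Std A b d) {x y : G} (hx : x ∈ A) (hy : y ∈ A) : W d b x y = W b d x y := by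
  rw [S.W_symm hx hy]
  unfold W
  exact com_symm S.H (cj_sq (S.sq x hx) S.hd) (cj_sq (S.sq y hy) S.hb)

theorem W_sq (S : Std A b d) {x y : G} (hx : x ∈ A) (hy : y ∈ A) :
    W b d x y * W b d x y = 1 :=
  com_inv S.H (cj_sq (S.sq x hx) S.hb) (cj_sq (S.sq y hy) S.hd)

theorem W_b (S : Std A b d) {x y : G} (hx : x ∈ A) (hy : y ∈ A) :
    Commute (W b d x y) (cj x b) :=
  com_left S.H (cj_sq (S.sq x hx) S.hb) (cj_sq (S.sq y hy) S.hd)

theorem W_self (S : Std A b d) {x : G} (hx : x ∈ A) : W b d x x = 1 :=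
  commutatorElement_eq_one_iff_commute.2 (S.bd hx)

theorem N_sq (S : Std A b d) {x y z : G} (hx : x ∈ A) (hy : y ∈ A) (hz : z ∈ A) :
    N b d x y z * N b d x y z = 1 :=
  com_inv S.H (S.W_sq hx hy) (cj_sq (S.sq z hz) S.hb)

theorem N_12 (S : Std A b d) {x y z : G} (hx : x ∈ A) (hy : y ∈ A) :
    N b d x y z = N b d y x z := by
  unfold N
  rw [S.W_symm hx hy]

theorem N_13 (S : Std A b d) {x y z : G} (hx : x ∈ A) (hy : y ∈ A) (hz : z ∈ A) :
    N b d x y z = N b d z y x ∧ Commute (N b d x y z) (cj y d) :=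
  triple S.H (cj_sq (S.sq x hx) S.hb) (cj_sq (S.sq z hz) S.hb) (cj_sq (S.sq y hy) S.hd)
    (S.bb hx hz)

theorem N_bz (S : Std A b d) {x y z : G} (hx : x ∈ A) (hy : y ∈ A) (hz : z ∈ A) :
    Commute (N b d x y z) (cj z b) :=
  com_right S.H (S.W_sq hx hy) (cj_sq (S.sq z hz) S.hb)

theorem N_bx (S : Std A b d) {x y z : G} (hx : x ∈ A) (hy : y ∈ A) (hz : z ∈ A) :
    Commute (N b d x y z) (cj x b) := by
  rw [(S.N_13 hx hy hz).1]
  exact S.N_bz hz hy hx

theorem N_by (S : Std A b d) {x y z : G} (hx : x ∈ A) (hy : y ∈ A) (hz : z ∈ A) :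
    Commute (N b d x y z) (cj y b) := by
  rw [S.N_12 hx hy]
  exact S.N_bx hy hx hz

theorem N_dy (S : Std A b d) {x y z : G} (hx : x ∈ A) (hy : y ∈ A) (hz : z ∈ A) :
    Commute (N b d x y z) (cj y d) := (S.N_13 hx hy hz).2

theorem N_dx (S : Std A b d) {x y z : G} (hx : x ∈ A) (hy : y ∈ A) (hz : z ∈ A) :
    Commute (N b d x y z) (cj x d) := by
  rw [S.N_12 hx hy]
  exact S.N_dy hy hx hz

theorem N_dz (S : Std A b d) {x y z : G} (hx : x ∈ A) (hy : y ∈ A) (hz : z ∈ A) :
    Commute (N b d x y z) (cj z d) := by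
  rw [(S.N_13 hx hy hz).1]
  exact S.N_dx hz hy hx

theorem N_shift (S : Std A b d) {x y z : G} (hx : x ∈ A) (hy : y ∈ A) (hz : z ∈ A) :
    N b d x y z = N b d z (x * y * z) x := by
  have hk : x * z ∈ A := A.mul_mem hx hz
  have hu : x * y * z ∈ A := A.mul_mem (A.mul_mem hx hy) hz
  have hk2 := S.sq _ hk
  have e1 : cj (x * z) (cj x b) = cj z b := by
    rw [cj_cj (S.comm hk hx)]
    congr 1
    calc x * z * x = x * (z * x) := by group
      _ = x * (x * z) := by rw [(S.comm hz hx).eq]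
      _ = (x * x) * z := by group
      _ = z := by rw [S.sq x hx, one_mul]
  have e2 : cj (x * z) (cj y d) = cj (x * y * z) d := by
    rw [cj_cj (S.comm hk hy)]
    congr 1
    calc x * z * y = x * (z * y) := by group
      _ = x * (y * z) := by rw [(S.comm hz hy).eq]
      _ = x * y * z := by group
  have e3 : cj (x * z) (W b d x y) = W b d z (x * y * z) := by
    unfold W
    rw [cj_com hk2, e1, e2]
  have hW := S.W_sq hx hy
  have hW' := S.W_sq hz hu
  have h2 : Commute (W b d x y) (W b d z (x * y * z)) := by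
    rw [← e3]
    exact comm_conj S.H hk2 hW
  have h3 : Commute (cj x b * W b d x y) (cj z b * W b d z (x * y * z)) := by
    rw [← e3, ← e1, ← cj_mul hk2]
    exact comm_conj S.H hk2 (mul_sq (cj_sq (S.sq x hx) S.hb) hW (S.W_b hx hy).symm)
  exact key S.H (cj_sq (S.sq x hx) S.hb) hW (cj_sq (S.sq z hz) S.hb) hW' (S.bb hx hz) h2 h3

/-- if `A` has at most four elements the elements `N` commute with all conjugates of `b`, `d` -/
theorem N_all (S : Std A b d) [Finite A] (hA : Nat.card A ≤ 4) {x y z u : G} (hx : x ∈ A)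
    (hy : y ∈ A) (hz : z ∈ A) (hu : u ∈ A) :
    Commute (N b d x y z) (cj u b) ∧ Commute (N b d x y z) (cj u d) := by
  classical
  by_cases hxy : x = y
  · subst hxy
    have : N b d x x z = 1 := by
      unfold N
      rw [S.W_self hx, commutatorElement_one_left]
    rw [this]
    exact ⟨Commute.one_left _, Commute.one_left _⟩
  by_cases hxz : x = z
  · subst hxz
    have : N b d x y x = 1 := commutatorElement_eq_one_iff_commute.2 (S.W_b hx hy)
    rw [this]
    exact ⟨Commute.one_left _, Commute.one_left _⟩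
  by_cases hyz : y = z
  · subst hyz
    have : N b d x y y = 1 := by
      rw [S.N_12 hx hy]
      exact commutatorElement_eq_one_iff_commute.2 (S.W_b hy hx)
    rw [this]
    exact ⟨Commute.one_left _, Commute.one_left _⟩
  have hv : x * y * z ∈ A := A.mul_mem (A.mul_mem hx hy) hz
  have key2 : u = x ∨ u = y ∨ u = z ∨ u = x * y * z := by
    have hfin : (A : Set G).Finite := Set.toFinite _
    set F := hfin.toFinset with hF
    have hcard : F.card ≤ 4 := by
      rw [hF, ← Nat.card_eq_card_finite_toFinset]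
      exact hA
    have hsub : ({x, y, z, x * y * z} : Finset G) ⊆ F := by
      intro g hg
      simp only [Finset.mem_insert, Finset.mem_singleton] at hg
      rw [hF, Set.Finite.mem_toFinset]
      rcases hg with rfl | rfl | rfl | rfl <;> assumption
    have hne1 : x * y * z ≠ x := by
      intro h
      apply hyz
      have h1 : y * z = 1 := by
        have : x * (y * z) = x * 1 := by rw [mul_one, ← mul_assoc, h]
        exact mul_left_cancel this
      rw [← inv_eq (S.sq z hz)]
      exact eq_inv_of_mul_eq_one_left h1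
    have hne2 : x * y * z ≠ y := by
      intro h
      apply hxz
      have h1 : x * z = 1 := by
        have : y * (x * z) = y * 1 := by
          rw [mul_one, ← mul_assoc, (S.comm hy hx).eq, h]
        exact mul_left_cancel this
      rw [← inv_eq (S.sq z hz)]
      exact eq_inv_of_mul_eq_one_left h1
    have hne3 : x * y * z ≠ z := by
      intro h
      apply hxy
      have h1 : x * y = 1 := by
        have : x * y * z = 1 * z := by rw [one_mul, h]
        exact mul_right_cancel this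
      rw [← inv_eq (S.sq y hy)]
      exact eq_inv_of_mul_eq_one_left h1
    have hc : ({x, y, z, x * y * z} : Finset G).card = 4 := by
      rw [Finset.card_insert_of_notMem, Finset.card_insert_of_notMem,
        Finset.card_insert_of_notMem, Finset.card_singleton]
      · simpa using hne3.symm
      · simp only [Finset.mem_insert, Finset.mem_singleton, not_or]
        exact ⟨hyz, hne2.symm⟩
      · simp only [Finset.mem_insert, Finset.mem_singleton, not_or]
        exact ⟨hxy, hxz, hne1.symm⟩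
    have heq := Finset.eq_of_subset_of_card_le hsub (by rw [hc]; exact hcard)
    have hu' : u ∈ F := by
      rw [hF, Set.Finite.mem_toFinset]
      exact hu
    rw [← heq] at hu'
    simpa only [Finset.mem_insert, Finset.mem_singleton] using hu'
  rcases key2 with rfl | rfl | rfl | rfl
  · exact ⟨S.N_bx hx hy hz, S.N_dx hx hy hz⟩
  · exact ⟨S.N_by hx hy hz, S.N_dy hx hy hz⟩
  · exact ⟨S.N_bz hx hy hz, S.N_dz hx hy hz⟩
  · rw [S.N_shift hx hy hz]
    exact ⟨S.N_by hz hv hx, S.N_dy hz hv hx⟩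

end Std

/-! ### finiteness -/

theorem closure_comm {A B : Set G} (h : ∀ a ∈ A, ∀ b ∈ B, Commute a b) :
    ∀ s ∈ Subgroup.closure A, ∀ t ∈ Subgroup.closure B, Commute s t := by
  intro s hs t ht
  have h1 : ∀ a ∈ A, Commute a t := by
    intro a ha
    induction ht using Subgroup.closure_induction with
    | mem x hx => exact h a ha x hx
    | one => exact Commute.one_right _
    | mul a b _ _ ha hb => exact ha.mul_right hb
    | inv a _ ha => exact ha.inv_right
  induction hs using Subgroup.closure_induction with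
  | mem x hx => exact h1 x hx
  | one => exact Commute.one_left _
  | mul a b _ _ ha hb => exact ha.mul_left hb
  | inv a _ ha => exact ha.inv_left

/-- finitely many pairwise commuting involutions generate a finite `2`-group -/
theorem fin_closure {S : Set G} (hS : S.Finite) (hc : ∀ x ∈ S, ∀ y ∈ S, Commute x y)
    (h2 : ∀ x ∈ S, x * x = 1) :
    Finite (Subgroup.closure S) ∧ IsPGroup 2 (Subgroup.closure S) := by
  have hcomm := closure_comm hc
  have hsq : ∀ x ∈ Subgroup.closure S, x * x = 1 := by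
    intro x hx
    induction hx using Subgroup.closure_induction with
    | mem x hx => exact h2 x hx
    | one => exact one_mul 1
    | mul a b ha' hb' ha hb => exact mul_sq ha hb (hcomm a ha' b hb')
    | inv a _ ha => rw [← mul_inv_rev, ha, inv_one]
  constructor
  · let i : CommGroup (Subgroup.closure S) :=
      { (inferInstance : Group (Subgroup.closure S)) with
        mul_comm := fun x y => Subtype.ext (hcomm x x.2 y y.2).eq }
    have hfg : Group.FG (Subgroup.closure S) :=
      (Group.fg_iff_subgroup_fg _).2 ((Subgroup.fg_iff _).2 ⟨_, rfl, hS⟩)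
    have htor : IsMulTorsion (Subgroup.closure S) := by
      intro x
      rw [isOfFinOrder_iff_pow_eq_one]
      refine ⟨2, by norm_num, Subtype.ext ?_⟩
      have := hsq x x.2
      rw [← sq] at this
      exact this
    exact CommGroup.finite_of_fg_isMulTorsion _ htor
  · intro x
    refine ⟨1, Subtype.ext ?_⟩
    have := hsq x x.2
    rw [← sq] at this
    simpa using this

theorem sup_cov {H K : Subgroup G} (hn : K ≤ Subgroup.normalizer (H : Set G)) :
    ∀ g ∈ K ⊔ H, ∃ k ∈ K, ∃ h ∈ H, g = k * h := by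
  have hcov : ∀ g ∈ K ⊔ H, ∃ k ∈ K, ∃ h ∈ H, g = k * h := by
    intro g hg
    rw [Subgroup.sup_eq_closure] at hg
    induction hg using Subgroup.closure_induction_right with
    | one => exact ⟨1, K.one_mem, 1, H.one_mem, by simp⟩
    | mul_right x hx y hy ih =>
      obtain ⟨k, hk, h, hh, rfl⟩ := ih
      rcases hy with hy | hy
      · refine ⟨k * y, K.mul_mem hk hy, y⁻¹ * h * y, ?_, by group⟩
        have := (Subgroup.mem_normalizer_iff.1 (hn (K.inv_mem hy)) h).1 hh
        simpa using this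
      · exact ⟨k, hk, h * y, H.mul_mem hh hy, by group⟩
    | mul_inv_cancel x hx y hy ih =>
      obtain ⟨k, hk, h, hh, rfl⟩ := ih
      rcases hy with hy | hy
      · refine ⟨k * y⁻¹, K.mul_mem hk (K.inv_mem hy), y * h * y⁻¹, ?_, by group⟩
        exact (Subgroup.mem_normalizer_iff.1 (hn hy) h).1 hh
      · exact ⟨k, hk, h * y⁻¹, H.mul_mem hh (H.inv_mem hy), by group⟩
  exact hcov

theorem sup_fin {H K : Subgroup G} (hH : Finite H ∧ IsPGroup 2 H) (hK : Finite K ∧ IsPGroup 2 K)
    (hn : K ≤ Subgroup.normalizer (H : Set G)) :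
    Finite (K ⊔ H : Subgroup G) ∧ IsPGroup 2 (K ⊔ H : Subgroup G) := by
  obtain ⟨_, hH2⟩ := hH
  obtain ⟨_, hK2⟩ := hK
  refine ⟨?_, hK2.to_sup_of_normal_right' hH2 hn⟩
  have hf : (Set.range fun p : K × H => (p.1 : G) * (p.2 : G)).Finite := Set.finite_range _
  refine Set.Finite.to_subtype (hf.subset ?_)
  intro g hg
  obtain ⟨k, hk, h, hh, rfl⟩ := sup_cov hn g hg
  exact ⟨(⟨k, hk⟩, ⟨h, hh⟩), rfl⟩

theorem sup_card {H K : Subgroup G} [Finite H] [Finite K]
    (hn : K ≤ Subgroup.normalizer (H : Set G)) :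
    Nat.card (K ⊔ H : Subgroup G) ≤ Nat.card K * Nat.card H := by
  rw [← Nat.card_prod]
  have hmem : ∀ p : K × H, (p.1 : G) * (p.2 : G) ∈ K ⊔ H := fun p =>
    Subgroup.mul_mem _ (Subgroup.mem_sup_left p.1.2) (Subgroup.mem_sup_right p.2.2)
  refine Nat.card_le_card_of_surjective
    (fun p : K × H => (⟨(p.1 : G) * (p.2 : G), hmem p⟩ : (K ⊔ H : Subgroup G))) ?_
  rintro ⟨g, hg⟩
  obtain ⟨k, hk, h, hh, rfl⟩ := sup_cov hn g hg
  exact ⟨(⟨k, hk⟩, ⟨h, hh⟩), rfl⟩

theorem closure_normalizes {S T : Set G} (hc : ∀ x ∈ S, ∀ y ∈ T, Commute x y) :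
    Subgroup.closure S ≤ Subgroup.normalizer (Subgroup.closure T : Set G) := by
  intro s hs
  rw [Subgroup.mem_normalizer_iff]
  intro x
  constructor
  · intro hx
    rw [(closure_comm hc s hs x hx).eq, mul_inv_cancel_right]
    exact hx
  · intro hx
    have h := closure_comm hc s hs _ hx
    have e : s * x * s⁻¹ = x := by
      have h1 : s * (s * x * s⁻¹) = s * x * s⁻¹ * s := h.eq
      have h2 : s * (s * x * s⁻¹) = s * x := by rw [h1]; group
      exact mul_left_cancel h2
    rwa [e] at hx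

/-- `n` pairwise commuting involutions generate a group of order at most `2 ^ n` -/
theorem card_closure (n : ℕ) : ∀ S : Finset G, S.card ≤ n → (∀ x ∈ S, ∀ y ∈ S, Commute x y) →
    (∀ x ∈ S, x * x = 1) → Nat.card (Subgroup.closure (S : Set G)) ≤ 2 ^ n := by
  classical
  induction n with
  | zero =>
    intro S hS _ _
    have : S = ∅ := Finset.card_eq_zero.1 (Nat.le_zero.1 hS)
    subst this
    simp
  | succ n ih =>
    intro S hS hc h2
    rcases S.eq_empty_or_nonempty with rfl | ⟨s, hs⟩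
    · simp [Nat.one_le_two_pow]
    · have hc' : ∀ x ∈ S.erase s, ∀ y ∈ S.erase s, Commute x y := fun x hx y hy =>
        hc x (Finset.mem_of_mem_erase hx) y (Finset.mem_of_mem_erase hy)
      have h2' : ∀ x ∈ S.erase s, x * x = 1 := fun x hx => h2 x (Finset.mem_of_mem_erase hx)
      have h1 := ih (S.erase s) (by rw [Finset.card_erase_of_mem hs]; omega) hc' h2'
      have e : Subgroup.closure (S : Set G) =
          Subgroup.closure {s} ⊔ Subgroup.closure (S.erase s : Set G) := by
        rw [← Subgroup.closure_union]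
        congr 1
        ext x
        simp only [Finset.mem_coe, Set.mem_union, Set.mem_singleton_iff, Finset.coe_erase,
          Set.mem_sdiff]
        constructor
        · intro hx
          by_cases h : x = s
          · exact Or.inl h
          · exact Or.inr ⟨hx, h⟩
        · rintro (rfl | ⟨h, _⟩)
          · exact hs
          · exact h
      have hsub : ∀ x ∈ Subgroup.closure {s}, x ∈ ({1, s} : Finset G) := by
        intro x hx
        rw [Subgroup.mem_closure_singleton] at hx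
        obtain ⟨k, rfl⟩ := hx
        have hs2 : s ^ (2 : ℤ) = 1 := by
          rw [zpow_two]
          exact h2 s hs
        rcases Int.even_or_odd' k with ⟨m, rfl | rfl⟩
        · rw [zpow_mul, hs2, one_zpow]
          simp
        · rw [zpow_add, zpow_mul, hs2, one_zpow, zpow_one, one_mul]
          simp
      have hf1 : Finite (Subgroup.closure {s} : Subgroup G) :=
        ((Finset.finite_toSet _).subset hsub).to_subtype
      have hf2 : Finite (Subgroup.closure (S.erase s : Set G)) :=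
        (fin_closure (Finset.finite_toSet _) hc' h2').1
      have hcard : Nat.card (Subgroup.closure {s} : Subgroup G) ≤ 2 := by
        have h3 : Nat.card (Subgroup.closure {s} : Subgroup G) ≤
            Nat.card (({1, s} : Finset G) : Set G) :=
          Nat.card_mono (Finset.finite_toSet _) hsub
        refine h3.trans ?_
        rw [Nat.card_coe_set_eq, Set.ncard_coe_finset]
        exact Finset.card_le_two
      rw [e]
      refine (sup_card (closure_normalizes ?_)).trans ?_
      · intro x hx y hy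
        rw [Set.mem_singleton_iff] at hx
        subst hx
        exact hc x hs y (Finset.mem_of_mem_erase (Finset.mem_coe.1 hy))
      · rw [pow_succ, mul_comm (2 ^ n)]
        exact Nat.mul_le_mul hcard h1

/-- involutions which conjugate generators into the subgroup normalise it -/
theorem normalizes {S T : Set G} (hT : ∀ t ∈ T, t * t = 1)
    (h : ∀ t ∈ T, ∀ s ∈ S, t * s * t⁻¹ ∈ Subgroup.closure S) :
    Subgroup.closure T ≤ Subgroup.normalizer (Subgroup.closure S : Set G) := by
  rw [Subgroup.closure_le]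
  intro t ht
  have h1 : ∀ x ∈ Subgroup.closure S, t * x * t⁻¹ ∈ Subgroup.closure S := by
    intro x hx
    induction hx using Subgroup.closure_induction with
    | mem x hx => exact h t ht x hx
    | one => simp
    | mul a b _ _ ha hb =>
      have : t * (a * b) * t⁻¹ = t * a * t⁻¹ * (t * b * t⁻¹) := by group
      rw [this]
      exact Subgroup.mul_mem _ ha hb
    | inv a _ ha =>
      have : t * a⁻¹ * t⁻¹ = (t * a * t⁻¹)⁻¹ := by group
      rw [this]
      exact Subgroup.inv_mem _ ha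
  rw [SetLike.mem_coe, Subgroup.mem_normalizer_iff]
  intro x
  constructor
  · exact h1 x
  · intro hx
    have h2 := h1 _ hx
    have e : t * (t * x * t⁻¹) * t⁻¹ = t * t * x * (t * t)⁻¹ := by group
    rw [e, hT t ht] at h2
    simpa using h2

theorem comm_of_com {w p q : G} (h1w : Commute ⁅w, p⁆ w) (h1p : Commute ⁅w, p⁆ p)
    (h1q : Commute ⁅w, p⁆ q) (h2p : Commute ⁅w, q⁆ p) (h2q : Commute ⁅w, q⁆ q) :
    Commute w ⁅p, q⁆ := by
  have e1 : w * p = ⁅w, p⁆ * p * w := by rw [commutatorElement_def]; group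
  have e2 : w * q = ⁅w, q⁆ * q * w := by rw [commutatorElement_def]; group
  have e3 : w * p⁻¹ = p⁻¹ * ⁅w, p⁆⁻¹ * w := by rw [commutatorElement_def]; group
  have e4 : w * q⁻¹ = q⁻¹ * ⁅w, q⁆⁻¹ * w := by rw [commutatorElement_def]; group
  have h12 : Commute ⁅w, p⁆ ⁅w, q⁆ := by
    rw [commutatorElement_def w q]
    exact ((h1w.mul_right h1q).mul_right h1w.inv_right).mul_right h1q.inv_right
  generalize ⁅w, p⁆ = m at *
  generalize ⁅w, q⁆ = n at *
  show w * ⁅p, q⁆ = ⁅p, q⁆ * w
  rw [commutatorElement_def]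
  have c : Commute m (p * (n * q) * p⁻¹) :=
    (h1p.mul_right (h12.mul_right h1q)).mul_right h1p.inv_right
  calc w * (p * q * p⁻¹ * q⁻¹) = (w * p) * q * p⁻¹ * q⁻¹ := by group
    _ = m * p * (w * q) * p⁻¹ * q⁻¹ := by rw [e1]; group
    _ = m * p * (n * q) * (w * p⁻¹) * q⁻¹ := by rw [e2]; group
    _ = m * p * (n * q) * (p⁻¹ * m⁻¹) * (w * q⁻¹) := by rw [e3]; group
    _ = m * (p * (n * q) * p⁻¹) * m⁻¹ * (q⁻¹ * n⁻¹) * w := by rw [e4]; group
    _ = (p * (n * q) * p⁻¹) * m * m⁻¹ * (q⁻¹ * n⁻¹) * w := by rw [c.eq]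
    _ = (p * n) * q * p⁻¹ * q⁻¹ * n⁻¹ * w := by group
    _ = n * (p * q * p⁻¹ * q⁻¹) * n⁻¹ * w := by rw [h2p.symm.eq]; group
    _ = (p * q * p⁻¹ * q⁻¹) * n * n⁻¹ * w := by
      rw [(((h2p.mul_right h2q).mul_right h2p.inv_right).mul_right h2q.inv_right).eq]
    _ = (p * q * p⁻¹ * q⁻¹) * w := by group

namespace Std

variable {A : Subgroup G} {b d : G}

/-- the conjugates of `b` -/
def Sb (A : Subgroup G) (b : G) : Set G := {g | ∃ x ∈ A, g = cj x b}

def SW (A : Subgroup G) (b d : G) : Set G := {g | ∃ x ∈ A, ∃ y ∈ A, g = W b d x y}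

def SN (A : Subgroup G) (b d : G) : Set G := {g | ∃ x ∈ A, ∃ y ∈ A, ∃ z ∈ A, g = N b d x y z}

theorem Sb_fin [Finite A] : (Sb A b).Finite := by
  refine (Set.finite_range fun x : A => cj (x : G) b).subset ?_
  rintro _ ⟨x, hx, rfl⟩
  exact ⟨⟨x, hx⟩, rfl⟩

theorem SW_fin [Finite A] : (SW A b d).Finite := by
  refine (Set.finite_range fun x : A × A => W b d (x.1 : G) (x.2 : G)).subset ?_
  rintro _ ⟨x, hx, y, hy, rfl⟩
  exact ⟨(⟨x, hx⟩, ⟨y, hy⟩), rfl⟩

theorem SN_fin [Finite A] : (SN A b d).Finite := by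
  refine (Set.finite_range fun x : A × A × A => N b d (x.1 : G) (x.2.1 : G) (x.2.2 : G)).subset ?_
  rintro _ ⟨x, hx, y, hy, z, hz, rfl⟩
  exact ⟨(⟨x, hx⟩, ⟨y, hy⟩, ⟨z, hz⟩), rfl⟩

/-- generators of the derived part -/
def S0 (A : Subgroup G) (b d : G) : Set G := SW A b d ∪ (SN A b d ∪ SN A d b)

theorem S0_fin [Finite A] : (S0 A b d).Finite := SW_fin.union (SN_fin.union SN_fin)

theorem S0_sq (S : Std A b d) : ∀ g ∈ S0 A b d, g * g = 1 := by
  rintro g (⟨x, hx, y, hy, rfl⟩ | ⟨x, hx, y, hy, z, hz, rfl⟩ | ⟨x, hx, y, hy, z, hz, rfl⟩)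
  · exact S.W_sq hx hy
  · exact S.N_sq hx hy hz
  · exact S.symm.N_sq hx hy hz

/-- the elements `N` commute with the group generated by the conjugates of `b` and `d` -/
theorem N_cl (S : Std A b d) [Finite A] (hA : Nat.card A ≤ 4) {n v : G}
    (hn : n ∈ SN A b d ∪ SN A d b) (hv : v ∈ Subgroup.closure (Sb A b ∪ Sb A d)) :
    Commute n v := by
  have h1 : ∀ n ∈ SN A b d ∪ SN A d b, ∀ v ∈ Sb A b ∪ Sb A d, Commute n v := by
    rintro _ (⟨x, hx, y, hy, z, hz, rfl⟩ | ⟨x, hx, y, hy, z, hz, rfl⟩) _ (⟨u, hu, rfl⟩ | ⟨u, hu, rfl⟩)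
    · exact (S.N_all hA hx hy hz hu).1
    · exact (S.N_all hA hx hy hz hu).2
    · exact (S.symm.N_all hA hx hy hz hu).2
    · exact (S.symm.N_all hA hx hy hz hu).1
  exact closure_comm h1 n (Subgroup.subset_closure hn) v hv

theorem W_cl {x y : G} (hx : x ∈ A) (hy : y ∈ A) :
    W b d x y ∈ Subgroup.closure (Sb A b ∪ Sb A d) := by
  have h1 : cj x b ∈ Subgroup.closure (Sb A b ∪ Sb A d) :=
    Subgroup.subset_closure (Or.inl ⟨x, hx, rfl⟩)
  have h2 : cj y d ∈ Subgroup.closure (Sb A b ∪ Sb A d) :=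
    Subgroup.subset_closure (Or.inr ⟨y, hy, rfl⟩)
  unfold W
  rw [commutatorElement_def]
  exact Subgroup.mul_mem _ (Subgroup.mul_mem _ (Subgroup.mul_mem _ h1 h2)
    (Subgroup.inv_mem _ h1)) (Subgroup.inv_mem _ h2)

theorem N_mem {x y z : G} (hx : x ∈ A) (hy : y ∈ A) (hz : z ∈ A) :
    N b d x y z ∈ Subgroup.closure (Sb A b ∪ Sb A d) := by
  have h1 : cj z b ∈ Subgroup.closure (Sb A b ∪ Sb A d) :=
    Subgroup.subset_closure (Or.inl ⟨z, hz, rfl⟩)
  have h2 : W b d x y ∈ Subgroup.closure (Sb A b ∪ Sb A d) := W_cl hx hy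
  unfold N
  rw [commutatorElement_def]
  exact Subgroup.mul_mem _ (Subgroup.mul_mem _ (Subgroup.mul_mem _ h2 h1)
    (Subgroup.inv_mem _ h2)) (Subgroup.inv_mem _ h1)

theorem S0_cl {g : G} (hg : g ∈ S0 A b d) :
    g ∈ Subgroup.closure (Sb A b ∪ Sb A d) := by
  rcases hg with ⟨x, hx, y, hy, rfl⟩ | ⟨x, hx, y, hy, z, hz, rfl⟩ | ⟨x, hx, y, hy, z, hz, rfl⟩
  · exact W_cl hx hy
  · exact N_mem hx hy hz
  · have : N d b x y z ∈ Subgroup.closure (Sb A d ∪ Sb A b) := N_mem hx hy hz
    rwa [Set.union_comm] at this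

theorem WW (S : Std A b d) [Finite A] (hA : Nat.card A ≤ 4) {x y u v : G} (hx : x ∈ A)
    (hy : y ∈ A) (hu : u ∈ A) (hv : v ∈ A) : Commute (W b d x y) (W b d u v) := by
  have hn1 : ⁅W b d x y, cj u b⁆ ∈ SN A b d ∪ SN A d b := Or.inl ⟨x, hx, y, hy, u, hu, rfl⟩
  have hn2 : ⁅W b d x y, cj v d⁆ ∈ SN A b d ∪ SN A d b := by
    refine Or.inr ⟨x, hx, y, hy, v, hv, ?_⟩
    unfold N
    rw [S.W_swap hx hy]
  have hp : cj u b ∈ Subgroup.closure (Sb A b ∪ Sb A d) :=
    Subgroup.subset_closure (Or.inl ⟨u, hu, rfl⟩)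
  have hq : cj v d ∈ Subgroup.closure (Sb A b ∪ Sb A d) :=
    Subgroup.subset_closure (Or.inr ⟨v, hv, rfl⟩)
  exact comm_of_com (S.N_cl hA hn1 (W_cl hx hy)) (S.N_cl hA hn1 hp) (S.N_cl hA hn1 hq)
    (S.N_cl hA hn2 hp) (S.N_cl hA hn2 hq)

theorem S0_comm (S : Std A b d) [Finite A] (hA : Nat.card A ≤ 4) :
    ∀ g ∈ S0 A b d, ∀ h ∈ S0 A b d, Commute g h := by
  rintro g (hg | hg) h (hh | hh)
  · obtain ⟨x, hx, y, hy, rfl⟩ := hg
    obtain ⟨u, hu, v, hv, rfl⟩ := hh
    exact S.WW hA hx hy hu hv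
  · exact (S.N_cl hA hh (S0_cl (Or.inl hg))).symm
  · exact S.N_cl hA hg (S0_cl (Or.inl hh))
  · exact S.N_cl hA hg (S0_cl (Or.inr hh))

/-- conjugates of the generators of the derived part -/
theorem S0_conj (S : Std A b d) [Finite A] (hA : Nat.card A ≤ 4) {u g : G} (hu : u ∈ A)
    (hg : g ∈ S0 A b d) : cj u b * g * (cj u b)⁻¹ ∈ Subgroup.closure (S0 A b d) := by
  rcases hg with hg | hg
  · obtain ⟨x, hx, y, hy, rfl⟩ := hg
    have e : cj u b * W b d x y * (cj u b)⁻¹ = ⁅cj u b, W b d x y⁆ * W b d x y := by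
      rw [commutatorElement_def]; group
    rw [e, com_symm S.H (cj_sq (S.sq u hu) S.hb) (S.W_sq hx hy)]
    exact Subgroup.mul_mem _ (Subgroup.subset_closure (Or.inr (Or.inl ⟨x, hx, y, hy, u, hu, rfl⟩)))
      (Subgroup.subset_closure (Or.inl ⟨x, hx, y, hy, rfl⟩))
  · have h := S.N_cl hA hg (Subgroup.subset_closure (Or.inl ⟨u, hu, rfl⟩) :
      cj u b ∈ Subgroup.closure (Sb A b ∪ Sb A d))
    rw [← h.eq, mul_assoc, mul_inv_cancel, mul_one]
    exact Subgroup.subset_closure (Or.inr hg)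

theorem S0_symm (S : Std A b d) : S0 A d b = S0 A b d := by
  unfold S0
  rw [Set.union_comm (SN A d b)]
  congr 1
  ext g
  constructor
  · rintro ⟨x, hx, y, hy, rfl⟩
    exact ⟨x, hx, y, hy, S.W_swap hx hy⟩
  · rintro ⟨x, hx, y, hy, rfl⟩
    exact ⟨x, hx, y, hy, (S.W_swap hx hy).symm⟩

theorem n2 (S : Std A b d) [Finite A] (hA : Nat.card A ≤ 4) :
    Subgroup.closure (Sb A b) ≤ Subgroup.normalizer (Subgroup.closure (S0 A b d) : Set G) := by
  refine normalizes ?_ ?_
  · rintro _ ⟨x, hx, rfl⟩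
    exact cj_sq (S.sq x hx) S.hb
  · rintro _ ⟨u, hu, rfl⟩ g hg
    exact S.S0_conj hA hu hg

theorem n3 (S : Std A b d) [Finite A] (hA : Nat.card A ≤ 4) :
    Subgroup.closure (Sb A d) ≤
      Subgroup.normalizer (Subgroup.closure (Sb A b ∪ S0 A b d) : Set G) := by
  refine normalizes ?_ ?_
  · rintro _ ⟨x, hx, rfl⟩
    exact cj_sq (S.sq x hx) S.hd
  · rintro _ ⟨u, hu, rfl⟩ g hg
    rcases hg with ⟨x, hx, rfl⟩ | hg
    · have e : cj u d * cj x b * (cj u d)⁻¹ = ⁅cj u d, cj x b⁆ * cj x b := by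
        rw [commutatorElement_def]; group
      rw [e, com_symm S.H (cj_sq (S.sq u hu) S.hd) (cj_sq (S.sq x hx) S.hb)]
      exact Subgroup.mul_mem _ (Subgroup.subset_closure (Or.inr (Or.inl ⟨x, hx, u, hu, rfl⟩)))
        (Subgroup.subset_closure (Or.inl ⟨x, hx, rfl⟩))
    · have hg' : g ∈ S0 A d b := by
        rw [S.S0_symm]
        exact hg
      have := S.symm.S0_conj hA hu hg'
      rw [S.S0_symm] at this
      exact Subgroup.closure_mono Set.subset_union_right this

theorem n4 (S : Std A b d) :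
    A ≤ Subgroup.normalizer (Subgroup.closure (Sb A b ∪ Sb A d) : Set G) := by
  have hcl : Subgroup.closure (A : Set G) = A := Subgroup.closure_eq A
  have hn := normalizes (S := Sb A b ∪ Sb A d) (T := (A : Set G)) (fun t ht => S.sq t ht) (by
    rintro t ht g (⟨x, hx, rfl⟩ | ⟨x, hx, rfl⟩)
    · refine Subgroup.subset_closure (Or.inl ⟨t * x, A.mul_mem ht hx, ?_⟩)
      rw [← cj_cj (S.comm ht hx), inv_eq (S.sq t ht)]
      rfl
    · refine Subgroup.subset_closure (Or.inr ⟨t * x, A.mul_mem ht hx, ?_⟩)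
      rw [← cj_cj (S.comm ht hx), inv_eq (S.sq t ht)]
      rfl)
  rw [hcl] at hn
  exact hn

theorem N_deg (S : Std A b d) {x y z : G} (hx : x ∈ A) (hy : y ∈ A)
    (h : x = y ∨ x = z ∨ y = z) : N b d x y z = 1 := by
  rcases h with rfl | rfl | rfl
  · unfold N
    rw [S.W_self hx, commutatorElement_one_left]
  · exact commutatorElement_eq_one_iff_commute.2 (S.W_b hx hy)
  · rw [S.N_12 hx hy]
    exact commutatorElement_eq_one_iff_commute.2 (S.W_b hy hx)

theorem N_perm (S : Std A b d) {x y z n : G} (hx : x ∈ A) (hy : y ∈ A) (hz : z ∈ A)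
    (h : N b d x y z = n) :
    N b d x y z = n ∧ N b d y x z = n ∧ N b d z y x = n ∧ N b d x z y = n ∧
      N b d y z x = n ∧ N b d z x y = n := by
  have h1 := S.N_12 hx hy (z := z)
  have h2 := (S.N_13 hx hy hz).1
  have h3 := (S.N_13 hy hx hz).1
  have h4 := S.N_12 hz hy (z := x)
  have h5 := (S.N_13 hy hz hx).1
  refine ⟨h, by rw [← h1, h], by rw [← h2, h], ?_, ?_, ?_⟩
  · rw [← h5, ← h4, ← h2, h]
  · rw [← h4, ← h2, h]
  · rw [← h3, ← h1, h]

theorem N_case (S : Std A b d) {a c : G} (ha : a ∈ A) (hc : c ∈ A)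
    (hA : ∀ x ∈ A, x = 1 ∨ x = a ∨ x = c ∨ x = a * c) {x y z : G} (hx : x ∈ A) (hy : y ∈ A)
    (hz : z ∈ A) : N b d x y z = 1 ∨ N b d x y z = N b d 1 a c := by
  have h1 : (1 : G) ∈ A := A.one_mem
  have hac : a * c ∈ A := A.mul_mem ha hc
  obtain ⟨n, hn⟩ : ∃ n, N b d 1 a c = n := ⟨_, rfl⟩
  rw [hn]
  have p1 := S.N_perm h1 ha hc hn
  have s2 : N b d c (a * c) 1 = n := by
    have h := S.N_shift h1 ha hc
    rw [one_mul] at h
    rw [← h, hn]
  have p2 := S.N_perm hc hac h1 s2
  have s3 : N b d a (a * c) 1 = n := by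
    have h := S.N_shift h1 hc ha
    rw [one_mul, (S.comm hc ha).eq] at h
    rw [← h]
    exact p1.2.2.2.1
  have p3 := S.N_perm ha hac h1 s3
  have s4 : N b d c (a * c) a = n := by
    have h := S.N_shift ha h1 hc
    rw [mul_one] at h
    rw [← h]
    exact p1.2.1
  have p4 := S.N_perm hc hac ha s4
  obtain ⟨a1, a2, a3, a4, a5, a6⟩ := p1
  obtain ⟨b1, b2, b3, b4, b5, b6⟩ := p2
  obtain ⟨c1, c2, c3, c4, c5, c6⟩ := p3
  obtain ⟨d1, d2, d3, d4, d5, d6⟩ := p4
  have hx' := hx
  have hy' := hy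
  rcases hA x hx with rfl | rfl | rfl | rfl <;> rcases hA y hy with rfl | rfl | rfl | rfl <;>
    rcases hA z hz with rfl | rfl | rfl | rfl <;>
    first
    | exact Or.inr (by assumption)
    | exact Or.inl (S.N_deg hx' hy' (Or.inl rfl))
    | exact Or.inl (S.N_deg hx' hy' (Or.inr (Or.inl rfl)))
    | exact Or.inl (S.N_deg hx' hy' (Or.inr (Or.inr rfl)))

theorem S0_card (S : Std A b d) [Finite A] (hA4 : Nat.card A ≤ 4) {a c : G} (ha : a ∈ A)
    (hc : c ∈ A) (hA : ∀ x ∈ A, x = 1 ∨ x = a ∨ x = c ∨ x = a * c) :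
    Nat.card (Subgroup.closure (S0 A b d)) ≤ 2 ^ 8 := by
  classical
  have h1 : (1 : G) ∈ A := A.one_mem
  have hac : a * c ∈ A := A.mul_mem ha hc
  set T : Finset G := {W b d 1 a, W b d 1 c, W b d 1 (a * c), W b d a c, W b d a (a * c),
    W b d c (a * c), N b d 1 a c, N d b 1 a c} with hT
  have hTS : (T : Set G) ⊆ S0 A b d := by
    intro g hg
    simp only [hT, Finset.coe_insert, Finset.coe_singleton, Set.mem_insert_iff,
      Set.mem_singleton_iff] at hg
    rcases hg with rfl | rfl | rfl | rfl | rfl | rfl | rfl | rfl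
    · exact Or.inl ⟨_, h1, _, ha, rfl⟩
    · exact Or.inl ⟨_, h1, _, hc, rfl⟩
    · exact Or.inl ⟨_, h1, _, hac, rfl⟩
    · exact Or.inl ⟨_, ha, _, hc, rfl⟩
    · exact Or.inl ⟨_, ha, _, hac, rfl⟩
    · exact Or.inl ⟨_, hc, _, hac, rfl⟩
    · exact Or.inr (Or.inl ⟨_, h1, _, ha, _, hc, rfl⟩)
    · exact Or.inr (Or.inr ⟨_, h1, _, ha, _, hc, rfl⟩)
  have hmem : ∀ g ∈ T, g ∈ Subgroup.closure (T : Set G) := fun g hg =>
    Subgroup.subset_closure (Finset.mem_coe.2 hg)
  have m1 := hmem (W b d 1 a) (by simp [hT])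
  have m2 := hmem (W b d 1 c) (by simp [hT])
  have m3 := hmem (W b d 1 (a * c)) (by simp [hT])
  have m4 := hmem (W b d a c) (by simp [hT])
  have m5 := hmem (W b d a (a * c)) (by simp [hT])
  have m6 := hmem (W b d c (a * c)) (by simp [hT])
  have m7 := hmem (N b d 1 a c) (by simp [hT])
  have m8 := hmem (N d b 1 a c) (by simp [hT])
  have hST : S0 A b d ⊆ Subgroup.closure (T : Set G) := by
    rintro g (⟨x, hx, y, hy, rfl⟩ | ⟨x, hx, y, hy, z, hz, rfl⟩ | ⟨x, hx, y, hy, z, hz, rfl⟩)
    · have hs := S.W_symm hx hy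
      have ht : x = y → W b d x y = 1 := by
        rintro rfl
        exact S.W_self hx
      show W b d x y ∈ Subgroup.closure (T : Set G)
      rcases hA x hx with rfl | rfl | rfl | rfl <;> rcases hA y hy with rfl | rfl | rfl | rfl <;>
        first
        | assumption
        | (rw [hs]; assumption)
        | (rw [ht rfl]; exact Subgroup.one_mem _)
    · show N b d x y z ∈ Subgroup.closure (T : Set G)
      rcases S.N_case ha hc hA hx hy hz with h | h
      · rw [h]
        exact Subgroup.one_mem _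
      · rw [h]
        exact m7
    · show N d b x y z ∈ Subgroup.closure (T : Set G)
      rcases S.symm.N_case ha hc hA hx hy hz with h | h
      · rw [h]
        exact Subgroup.one_mem _
      · rw [h]
        exact m8
  have e : Subgroup.closure (S0 A b d) = Subgroup.closure (T : Set G) :=
    le_antisymm ((Subgroup.closure_le _).2 hST) (Subgroup.closure_mono hTS)
  rw [e]
  refine card_closure 8 T ?_ ?_ ?_
  · rw [hT]
    exact (Finset.card_insert_le _ _).trans (Nat.succ_le_succ ((Finset.card_insert_le _ _).trans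
      (Nat.succ_le_succ Finset.card_le_six)))
  · intro x hx y hy
    exact S.S0_comm hA4 x (hTS (Finset.mem_coe.2 hx)) y (hTS (Finset.mem_coe.2 hy))
  · intro x hx
    exact S.S0_sq x (hTS (Finset.mem_coe.2 hx))

theorem Sb_card (S : Std A b d) [Finite A] (hA4 : Nat.card A ≤ 4) :
    Nat.card (Subgroup.closure (Sb A b)) ≤ 2 ^ 4 := by
  classical
  have h1 : (Sb A b) = ((Sb_fin (A := A) (b := b)).toFinset : Set G) := by simp
  rw [h1]
  refine card_closure 4 _ ?_ ?_ ?_
  · rw [← Nat.card_eq_card_finite_toFinset]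
    refine le_trans ?_ hA4
    refine Nat.card_le_card_of_surjective
      (fun x : A => (⟨cj (x : G) b, ⟨x, x.2, rfl⟩⟩ : Sb A b)) ?_
    rintro ⟨_, ⟨x, hx, rfl⟩⟩
    exact ⟨⟨x, hx⟩, rfl⟩
  · intro x hx y hy
    rw [Set.Finite.mem_toFinset] at hx hy
    obtain ⟨x, hx, rfl⟩ := hx
    obtain ⟨y, hy, rfl⟩ := hy
    exact S.bb hx hy
  · intro x hx
    rw [Set.Finite.mem_toFinset] at hx
    obtain ⟨x, hx, rfl⟩ := hx
    exact cj_sq (S.sq x hx) S.hb

/-- the main statement -/
theorem main (S : Std A b d) [Finite A] (hA4 : Nat.card A ≤ 4) {a c : G} (ha : a ∈ A)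
    (hc : c ∈ A) (hA : ∀ x ∈ A, x = 1 ∨ x = a ∨ x = c ∨ x = a * c) :
    (Finite (A ⊔ Subgroup.closure (Sb A b ∪ Sb A d) : Subgroup G) ∧
      IsPGroup 2 (A ⊔ Subgroup.closure (Sb A b ∪ Sb A d) : Subgroup G)) ∧
      Nat.card (A ⊔ Subgroup.closure (Sb A b ∪ Sb A d) : Subgroup G) ≤ 2 ^ 18 := by
  have k1 := fin_closure S0_fin (S.S0_comm hA4) S.S0_sq
  have hSb : ∀ g ∈ Sb A b, g * g = 1 := by
    rintro _ ⟨x, hx, rfl⟩
    exact cj_sq (S.sq x hx) S.hb
  have hSd : ∀ g ∈ Sb A d, g * g = 1 := by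
    rintro _ ⟨x, hx, rfl⟩
    exact cj_sq (S.sq x hx) S.hd
  have kb : Finite (Subgroup.closure (Sb A b)) ∧ IsPGroup 2 (Subgroup.closure (Sb A b)) := by
    refine fin_closure Sb_fin ?_ hSb
    rintro _ ⟨x, hx, rfl⟩ _ ⟨y, hy, rfl⟩
    exact S.bb hx hy
  have kd : Finite (Subgroup.closure (Sb A d)) ∧ IsPGroup 2 (Subgroup.closure (Sb A d)) := by
    refine fin_closure Sb_fin ?_ hSd
    rintro _ ⟨x, hx, rfl⟩ _ ⟨y, hy, rfl⟩
    exact S.symm.bb hx hy
  have k2 := sup_fin k1 kb (S.n2 hA4)
  have c2 : Nat.card (Subgroup.closure (Sb A b) ⊔ Subgroup.closure (S0 A b d) : Subgroup G) ≤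
      2 ^ 4 * 2 ^ 8 := by
    have := k1.1
    have := kb.1
    exact (sup_card (S.n2 hA4)).trans (Nat.mul_le_mul (S.Sb_card hA4) (S.S0_card hA4 ha hc hA))
  rw [← Subgroup.closure_union] at k2 c2
  have k3 := sup_fin k2 kd (S.n3 hA4)
  have c3 : Nat.card (Subgroup.closure (Sb A d) ⊔
      Subgroup.closure (Sb A b ∪ S0 A b d) : Subgroup G) ≤ 2 ^ 4 * (2 ^ 4 * 2 ^ 8) := by
    have := k2.1
    have := kd.1
    exact (sup_card (S.n3 hA4)).trans (Nat.mul_le_mul (S.symm.Sb_card hA4) c2)
  rw [← Subgroup.closure_union] at k3 c3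
  have hle : Subgroup.closure (Sb A b ∪ Sb A d) ≤
      Subgroup.closure (Sb A d ∪ (Sb A b ∪ S0 A b d)) := by
    refine Subgroup.closure_mono ?_
    rintro g (hg | hg)
    · exact Or.inr (Or.inl hg)
    · exact Or.inl hg
  have k4 : Finite (Subgroup.closure (Sb A b ∪ Sb A d)) ∧
      IsPGroup 2 (Subgroup.closure (Sb A b ∪ Sb A d)) := by
    obtain ⟨h1, h2⟩ := k3
    refine ⟨?_, h2.to_le hle⟩
    exact Set.Finite.to_subtype ((Set.toFinite _).subset hle)
  have c4 : Nat.card (Subgroup.closure (Sb A b ∪ Sb A d)) ≤ 2 ^ 4 * (2 ^ 4 * 2 ^ 8) := by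
    have := k3.1
    exact (Nat.card_mono (Set.toFinite _) hle).trans c3
  have kA : Finite A ∧ IsPGroup 2 A := by
    refine ⟨inferInstance, fun x => ⟨1, Subtype.ext ?_⟩⟩
    have : (x : G) ^ 2 = 1 := by
      rw [pow_two]
      exact S.sq x x.2
    simpa using this
  refine ⟨sup_fin k4 kA S.n4, ?_⟩
  have := k4.1
  refine (sup_card S.n4).trans ((Nat.mul_le_mul hA4 c4).trans ?_)
  norm_num

end Std

end Pool.Agent.Lib.KFG
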