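import Mathlib
import Pool.Agent.Lib.KFG.Basic

/-!
# Adding a finite set of involutions to a finite `2`-group
-/

open scoped commutatorElement

namespace Pool.Agent.Lib.KFG

variable {G : Type*} [Group G]

/-- Let `R` generate a finite `2`-group, and let `S` be a finite set of involutions which normalise
`⟨R⟩` and commute modulo `⟨R⟩`. Then `S ∪ R` generates a finite `2`-group. -/
theorem stage {R S : Set G}
    (hR : Finite (Subgroup.closure R) ∧ IsPGroup 2 (Subgroup.closure R)) (hS : S.Finite)
    (h2 : ∀ s ∈ S, s * s = 1) (hn : ∀ s ∈ S, ∀ r ∈ R, s * r * s⁻¹ ∈ Subgroup.closure R)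
    (hc : ∀ s ∈ S, ∀ s' ∈ S, ⁅s, s'⁆ ∈ Subgroup.closure R) :
    Finite (Subgroup.closure (S ∪ R)) ∧ IsPGroup 2 (Subgroup.closure (S ∪ R)) := by
  classical
  have key : ∀ T : Finset G, (T : Set G) ⊆ S →
      Finite (Subgroup.closure ((T : Set G) ∪ R)) ∧
        IsPGroup 2 (Subgroup.closure ((T : Set G) ∪ R)) := by
    intro T
    induction T using Finset.induction_on with
    | empty =>
      intro _
      rw [Finset.coe_empty, Set.empty_union]
      exact hR
    | insert s T _ ih =>
      intro hT
      rw [Finset.coe_insert, Set.insert_subset_iff] at hT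
      obtain ⟨hs, hT⟩ := hT
      have e : Subgroup.closure (((insert s T : Finset G) : Set G) ∪ R) =
          Subgroup.closure {s} ⊔ Subgroup.closure ((T : Set G) ∪ R) := by
        rw [← Subgroup.closure_union, Finset.coe_insert]
        congr 1
        ext x
        simp only [Set.mem_union, Set.mem_insert_iff, Set.mem_singleton_iff]
        tauto
      rw [e]
      have k1 : Finite (Subgroup.closure {s}) ∧ IsPGroup 2 (Subgroup.closure {s}) := by
        refine fin_closure (Set.finite_singleton s) ?_ ?_
        · rintro _ rfl _ rfl
          exact Commute.refl _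
        · rintro _ rfl
          exact h2 _ hs
      refine sup_fin (ih hT) k1 (normalizes ?_ ?_)
      · rintro _ rfl
        exact h2 _ hs
      · intro s' hs' r hr
        rw [Set.mem_singleton_iff] at hs'
        rw [hs']
        rcases hr with hr | hr
        · have e2 : s * r * s⁻¹ = ⁅s, r⁆ * r := by
            rw [commutatorElement_def]; group
          rw [e2]
          exact Subgroup.mul_mem _
            (Subgroup.closure_mono Set.subset_union_right (hc s hs r (hT hr)))
            (Subgroup.subset_closure (Or.inl hr))
        · exact Subgroup.closure_mono Set.subset_union_right (hn s hs r hr)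
  have h := key hS.toFinset (by simp)
  rw [Set.Finite.coe_toFinset] at h
  exact h

end Pool.Agent.Lib.KFG
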