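import Mathlib
import Pool.Agent.Lib.KFG.Stage

/-!
# Finiteness of `⟨A, b, d⟩` when the commutators `[N, b_u]`, `[N, d_u]` are central
-/

open scoped commutatorElement

namespace Pool.Agent.Lib.KFG

variable {G : Type*} [Group G]

theorem com_mem {Z : Subgroup G} {X : Set G} {w : G}
    (hZ : Subgroup.closure X ≤ Subgroup.normalizer (Z : Set G)) (h : ∀ x ∈ X, ⁅w, x⁆ ∈ Z) :
    ∀ v ∈ Subgroup.closure X, ⁅w, v⁆ ∈ Z := by
  intro v hv
  induction hv using Subgroup.closure_induction with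
  | mem x hx => exact h x hx
  | one => rw [commutatorElement_one_right]; exact Z.one_mem
  | mul a b ha hb iha ihb =>
    have e : ⁅w, a * b⁆ = ⁅w, a⁆ * (a * ⁅w, b⁆ * a⁻¹) := by
      simp only [commutatorElement_def]
      group
    rw [e]
    exact Z.mul_mem iha ((Subgroup.mem_normalizer_iff.1 (hZ ha) _).1 ihb)
  | inv a ha iha =>
    have e : ⁅w, a⁻¹⁆ = a⁻¹ * ⁅w, a⁆⁻¹ * a⁻¹⁻¹ := by
      simp only [commutatorElement_def]
      group
    rw [e]
    exact (Subgroup.mem_normalizer_iff.1 (hZ (Subgroup.inv_mem _ ha)) _).1 (Z.inv_mem iha)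

namespace Std

variable {A : Subgroup G} {b d : G}

/-- the involutions generating `V` -/
def SV (A : Subgroup G) (b d : G) : Set G := Sb A b ∪ Sb A d

def SNN (A : Subgroup G) (b d : G) : Set G := SN A b d ∪ SN A d b

/-- the commutators of the elements `N` with the conjugates of `b`, `d` -/
def ST (A : Subgroup G) (b d : G) : Set G := {g | ∃ n ∈ SNN A b d, ∃ v ∈ SV A b d, g = ⁅n, v⁆}

theorem SV_sq (S : Std A b d) : ∀ g ∈ SV A b d, g * g = 1 := by
  rintro g (⟨x, hx, rfl⟩ | ⟨x, hx, rfl⟩)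
  · exact cj_sq (S.sq x hx) S.hb
  · exact cj_sq (S.sq x hx) S.hd

theorem SNN_sq (S : Std A b d) : ∀ g ∈ SNN A b d, g * g = 1 := by
  rintro g (⟨x, hx, y, hy, z, hz, rfl⟩ | ⟨x, hx, y, hy, z, hz, rfl⟩)
  · exact S.N_sq hx hy hz
  · exact S.symm.N_sq hx hy hz

theorem SNN_cl {g : G} (hg : g ∈ SNN A b d) : g ∈ Subgroup.closure (SV A b d) :=
  S0_cl (Or.inr hg)

theorem ST_sq (S : Std A b d) : ∀ g ∈ ST A b d, g * g = 1 := by
  rintro g ⟨n, hn, v, hv, rfl⟩
  exact com_inv S.H (S.SNN_sq n hn) (S.SV_sq v hv)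

theorem ST_cl {g : G} (hg : g ∈ ST A b d) : g ∈ Subgroup.closure (SV A b d) := by
  obtain ⟨n, hn, v, hv, rfl⟩ := hg
  have h1 := SNN_cl hn
  have h2 : v ∈ Subgroup.closure (SV A b d) := Subgroup.subset_closure hv
  rw [commutatorElement_def]
  exact Subgroup.mul_mem _ (Subgroup.mul_mem _ (Subgroup.mul_mem _ h1 h2)
    (Subgroup.inv_mem _ h1)) (Subgroup.inv_mem _ h2)

theorem ST_fin [Finite A] : (ST A b d).Finite := by
  have h1 : (SNN A b d ×ˢ SV A b d).Finite :=
    (SN_fin.union SN_fin).prod (Sb_fin.union Sb_fin)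
  refine (h1.image fun p => ⁅p.1, p.2⁆).subset ?_
  rintro _ ⟨n, hn, v, hv, rfl⟩
  exact ⟨(n, v), ⟨hn, hv⟩, rfl⟩

theorem com_swap {x y : G} {Z : Subgroup G} (h : ⁅x, y⁆ ∈ Z) : ⁅y, x⁆ ∈ Z := by
  rw [← commutatorElement_inv]
  exact Z.inv_mem h

theorem conj_mem {x y : G} {Z : Subgroup G} (h : ⁅y, x⁆ ∈ Z) (hy : y ∈ Z) :
    x * y * x⁻¹ ∈ Z := by
  have e : x * y * x⁻¹ = ⁅x, y⁆ * y := by
    rw [commutatorElement_def]; group
  rw [e]
  exact Z.mul_mem (com_swap h) hy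

/-- the finiteness statement -/
theorem fin_of_central (S : Std A b d) [Finite A]
    (hcen : ∀ n ∈ SNN A b d, ∀ v ∈ SV A b d, ∀ u ∈ SV A b d, Commute ⁅n, v⁆ u) :
    Finite (A ⊔ Subgroup.closure (SV A b d) : Subgroup G) ∧
      IsPGroup 2 (A ⊔ Subgroup.closure (SV A b d) : Subgroup G) := by
  set V := Subgroup.closure (SV A b d) with hV
  have hTV : ∀ t ∈ ST A b d, ∀ u ∈ SV A b d, Commute t u := by
    rintro _ ⟨n, hn, v, hv, rfl⟩ u hu
    exact hcen n hn v hv u hu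
  have hTV' : ∀ t ∈ Subgroup.closure (ST A b d), ∀ u ∈ V, Commute t u := closure_comm hTV
  -- stage 0
  have k0 : Finite (Subgroup.closure (ST A b d)) ∧ IsPGroup 2 (Subgroup.closure (ST A b d)) :=
    fin_closure ST_fin (fun x hx y hy => hTV' x (Subgroup.subset_closure hx) y (ST_cl hy)) S.ST_sq
  have m0 : V ≤ Subgroup.normalizer (Subgroup.closure (ST A b d) : Set G) :=
    closure_normalizes fun x hx y hy => (hTV y hy x hx).symm
  -- stage 1
  have hnv : ∀ n ∈ SNN A b d, ∀ v ∈ V, ⁅n, v⁆ ∈ Subgroup.closure (ST A b d) := fun n hn =>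
    com_mem m0 fun x hx => Subgroup.subset_closure ⟨n, hn, x, hx, rfl⟩
  have k1 := stage k0 (SN_fin.union SN_fin : (SNN A b d).Finite) S.SNN_sq
    (by
      intro n hn t ht
      rw [← (hTV' t (Subgroup.subset_closure ht) n (SNN_cl hn)).eq, mul_inv_cancel_right]
      exact Subgroup.subset_closure ht)
    (fun n hn n' hn' => hnv n hn n' (SNN_cl hn'))
  set R1 := SNN A b d ∪ ST A b d with hR1
  have i01 : Subgroup.closure (ST A b d) ≤ Subgroup.closure R1 :=
    Subgroup.closure_mono Set.subset_union_right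
  have m1 : V ≤ Subgroup.normalizer (Subgroup.closure R1 : Set G) := by
    refine normalizes S.SV_sq ?_
    rintro v hv r (hr | hr)
    · exact conj_mem (i01 (hnv r hr v (Subgroup.subset_closure hv)))
        (Subgroup.subset_closure (Or.inl hr))
    · rw [← (hTV r hr v hv).eq, mul_inv_cancel_right]
      exact Subgroup.subset_closure (Or.inr hr)
  -- stage 2
  have hwv0 : ∀ w ∈ SW A b d, ∀ v ∈ SV A b d, ⁅w, v⁆ ∈ Subgroup.closure R1 := by
    rintro _ ⟨x, hx, y, hy, rfl⟩ v (⟨u, hu, rfl⟩ | ⟨u, hu, rfl⟩)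
    · exact Subgroup.subset_closure (Or.inl (Or.inl ⟨x, hx, y, hy, u, hu, rfl⟩))
    · refine Subgroup.subset_closure (Or.inl (Or.inr ⟨x, hx, y, hy, u, hu, ?_⟩))
      unfold N
      rw [S.W_swap hx hy]
  have hwv : ∀ w ∈ SW A b d, ∀ v ∈ V, ⁅w, v⁆ ∈ Subgroup.closure R1 := fun w hw =>
    com_mem m1 (hwv0 w hw)
  have hWV : ∀ w ∈ SW A b d, w ∈ V := by
    rintro _ ⟨x, hx, y, hy, rfl⟩
    exact W_cl hx hy
  have k2 := stage k1 (SW_fin : (SW A b d).Finite)
    (by
      rintro _ ⟨x, hx, y, hy, rfl⟩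
      exact S.W_sq hx hy)
    (by
      intro w hw r hr
      exact (Subgroup.mem_normalizer_iff.1 (m1 (hWV w hw)) r).1 (Subgroup.subset_closure hr))
    (fun w hw w' hw' => hwv w hw w' (hWV w' hw'))
  -- stage 3
  set R2 := SW A b d ∪ R1 with hR2
  have i12 : Subgroup.closure R1 ≤ Subgroup.closure R2 :=
    Subgroup.closure_mono Set.subset_union_right
  have hSW : ∀ w ∈ SW A b d, w ∈ Subgroup.closure R2 := fun w hw =>
    Subgroup.subset_closure (Or.inl hw)
  have k3 := stage k2 (Sb_fin.union Sb_fin : (SV A b d).Finite) S.SV_sq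
    (by
      rintro v hv r (hr | hr)
      · exact conj_mem (i12 (hwv0 r hr v hv)) (hSW r hr)
      · exact i12 ((Subgroup.mem_normalizer_iff.1 (m1 (Subgroup.subset_closure hv)) r).1
          (Subgroup.subset_closure hr)))
    (by
      rintro _ (⟨x, hx, rfl⟩ | ⟨x, hx, rfl⟩) _ (⟨y, hy, rfl⟩ | ⟨y, hy, rfl⟩)
      · rw [commutatorElement_eq_one_iff_commute.2 (S.bb hx hy)]
        exact Subgroup.one_mem _
      · exact hSW _ ⟨x, hx, y, hy, rfl⟩
      · exact com_swap (hSW _ ⟨y, hy, x, hx, rfl⟩)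
      · rw [commutatorElement_eq_one_iff_commute.2 (S.symm.bb hx hy)]
        exact Subgroup.one_mem _)
  have hle : V ≤ Subgroup.closure (SV A b d ∪ R2) := Subgroup.closure_mono Set.subset_union_left
  have k4 : Finite V ∧ IsPGroup 2 V := by
    have h1 : Finite (Subgroup.closure (SV A b d ∪ R2) : Subgroup G) := k3.1
    have h3 : ((Subgroup.closure (SV A b d ∪ R2) : Subgroup G) : Set G).Finite := Set.toFinite _
    exact ⟨Set.Finite.to_subtype (h3.subset hle), k3.2.to_le hle⟩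
  have kA : Finite A ∧ IsPGroup 2 A := by
    refine ⟨inferInstance, fun x => ⟨1, Subtype.ext ?_⟩⟩
    have : (x : G) ^ 2 = 1 := by
      rw [pow_two]
      exact S.sq x x.2
    simpa using this
  exact sup_fin k4 kA S.n4

end Std

end Pool.Agent.Lib.KFG
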