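import Mathlib
import Pool.Agent.Lib.KFG.Basic

/-!
# Two Klein four-groups in a group without dihedral subgroups of order 16
-/

open scoped commutatorElement

open Pool.Agent.Lib.KFG

namespace Pool.Agent.Lib.KFG.FourGroups

/-- Let `G` be a group in which the product of any two elements of order at most two has order
`1`, `2` or `4`. If `a`, `c` are commuting elements of order at most two and `b`, `d` are commuting
elements of order at most two, then `a, b, c, d` generate a finite `2`-group of order at most
`2 ^ 18`. -/
theorem four_groups {G : Type*} [Group G]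
    (hG : ∀ x y : G, x ^ 2 = 1 → y ^ 2 = 1 → (x * y) ^ 4 = 1) (a b c d : G)
    (ha : a ^ 2 = 1) (hb : b ^ 2 = 1) (hc : c ^ 2 = 1) (hd : d ^ 2 = 1)
    (hac : a * c = c * a) (hbd : b * d = d * b) :
    Finite (Subgroup.closure {a, b, c, d}) ∧ IsPGroup 2 (Subgroup.closure {a, b, c, d}) ∧
      Nat.card (Subgroup.closure {a, b, c, d}) ≤ 2 ^ 18 := by
  classical
  have H : Hyp G := by
    intro x y hx hy
    have h := hG x y (by rw [sq, hx]) (by rw [sq, hy])
    rw [← h]
    simp only [pow_succ, pow_zero, one_mul, mul_assoc]
  rw [sq] at ha hb hc hd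
  have hcomm : Commute a c := hac
  have key : ∀ x ∈ Subgroup.closure {a, c}, x ∈ ({1, a, c, a * c} : Finset G) := by
    intro x hx
    induction hx using Subgroup.closure_induction_right with
    | one => simp
    | mul_right x hx y hy ih =>
      simp only [Finset.mem_insert, Finset.mem_singleton] at ih ⊢
      rcases hy with rfl | hy
      · rcases ih with rfl | rfl | rfl | rfl
        · right; left; rw [one_mul]
        · left; exact ha
        · right; right; right; exact hac.symm
        · right; right; left
          calc y * c * y = y * (c * y) := by group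
            _ = y * (y * c) := by rw [hac]
            _ = y * y * c := by group
            _ = c := by rw [ha, one_mul]
      · rw [Set.mem_singleton_iff] at hy
        subst hy
        rcases ih with rfl | rfl | rfl | rfl
        · right; right; left; rw [one_mul]
        · right; right; right; rfl
        · left; exact hc
        · right; left; rw [mul_assoc, hc, mul_one]
    | mul_inv_cancel x hx y hy ih =>
      simp only [Finset.mem_insert, Finset.mem_singleton] at ih ⊢
      rcases hy with rfl | hy
      · rw [inv_eq ha]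
        rcases ih with rfl | rfl | rfl | rfl
        · right; left; rw [one_mul]
        · left; exact ha
        · right; right; right; exact hac.symm
        · right; right; left
          calc y * c * y = y * (c * y) := by group
            _ = y * (y * c) := by rw [hac]
            _ = y * y * c := by group
            _ = c := by rw [ha, one_mul]
      · rw [Set.mem_singleton_iff] at hy
        subst hy
        rw [inv_eq hc]
        rcases ih with rfl | rfl | rfl | rfl
        · right; right; left; rw [one_mul]
        · right; right; right; rfl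
        · left; exact hc
        · right; left; rw [mul_assoc, hc, mul_one]
  have hfinA : ((Subgroup.closure {a, c} : Subgroup G) : Set G).Finite :=
    (Finset.finite_toSet _).subset key
  have : Finite (Subgroup.closure {a, c} : Subgroup G) := hfinA.to_subtype
  have hcard : Nat.card (Subgroup.closure {a, c} : Subgroup G) ≤ 4 := by
    have h1 : Nat.card (Subgroup.closure {a, c} : Subgroup G) ≤
        Nat.card (({1, a, c, a * c} : Finset G) : Set G) :=
      Nat.card_mono (Finset.finite_toSet _) key
    refine h1.trans ?_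
    rw [Nat.card_coe_set_eq, Set.ncard_coe_finset]
    exact Finset.card_le_four
  have S : Std (Subgroup.closure {a, c}) b d := by
    refine ⟨H, ?_, hb, hd, hbd⟩
    intro x hx
    have := key x hx
    simp only [Finset.mem_insert, Finset.mem_singleton] at this
    rcases this with rfl | rfl | rfl | rfl
    · exact one_mul 1
    · exact ha
    · exact hc
    · exact mul_sq ha hc hcomm
  obtain ⟨⟨h1, h2⟩, h3⟩ := S.main hcard (Subgroup.subset_closure (Or.inl rfl) :
    a ∈ Subgroup.closure {a, c}) (Subgroup.subset_closure (Or.inr rfl) :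
    c ∈ Subgroup.closure {a, c}) (fun x hx => by
      have := key x hx
      simpa only [Finset.mem_insert, Finset.mem_singleton] using this)
  have hle : Subgroup.closure {a, b, c, d} ≤ Subgroup.closure {a, c} ⊔
      Subgroup.closure (Std.Sb (Subgroup.closure {a, c}) b ∪
        Std.Sb (Subgroup.closure {a, c}) d) := by
    rw [Subgroup.closure_le]
    have e : ∀ g : G, g = cj 1 g := by
      intro g
      simp [cj]
    rintro g (rfl | rfl | rfl | hg)
    · exact Subgroup.mem_sup_left (Subgroup.subset_closure (Or.inl rfl))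
    · exact Subgroup.mem_sup_right (Subgroup.subset_closure
        (Or.inl ⟨1, Subgroup.one_mem _, e _⟩))
    · exact Subgroup.mem_sup_left (Subgroup.subset_closure (Or.inr rfl))
    · rw [Set.mem_singleton_iff] at hg
      subst hg
      exact Subgroup.mem_sup_right (Subgroup.subset_closure
        (Or.inr ⟨1, Subgroup.one_mem _, e _⟩))
  exact ⟨Set.Finite.to_subtype ((Set.toFinite _).subset hle), h2.to_le hle,
    (Nat.card_mono (Set.toFinite _) hle).trans h3⟩

/-- Consequence: in such a group an involution `t` and an element `g` with `g ^ 4 = 1` generate a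
finite `2`-group of order at most `2 ^ 20`. -/
theorem two_four {G : Type*} [Group G]
    (hG : ∀ x y : G, x ^ 2 = 1 → y ^ 2 = 1 → (x * y) ^ 4 = 1) (t g : G)
    (ht : t ^ 2 = 1) (hg : g ^ 4 = 1) :
    Finite (Subgroup.closure {t, g}) ∧ IsPGroup 2 (Subgroup.closure {t, g}) ∧
      Nat.card (Subgroup.closure {t, g}) ≤ 2 ^ 20 := by
  classical
  have H : Hyp G := by
    intro x y hx hy
    have h := hG x y (by rw [sq, hx]) (by rw [sq, hy])
    rw [← h]
    simp only [pow_succ, pow_zero, one_mul, mul_assoc]
  have hh : g * g * (g * g) = 1 := by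
    rw [← hg]
    simp only [pow_succ, pow_zero, one_mul, mul_assoc]
  have conj2 : ∀ k : G, (k⁻¹ * t * k) ^ 2 = 1 := by
    intro k
    have : (k⁻¹ * t * k) ^ 2 = k⁻¹ * t ^ 2 * k := by
      rw [sq, sq]
      group
    rw [this, ht]
    group
  have hinv : (g * g)⁻¹ = g * g := inv_eq hh
  have c0 : Commute t (g⁻¹ * (g⁻¹ * t * g) * g) := by
    have h := comm_conj H hh (by rw [← sq]; exact ht : t * t = 1)
    have e : g⁻¹ * (g⁻¹ * t * g) * g = g * g * t * (g * g) := by
      nth_rewrite 1 [← hinv]
      group
    rw [e]
    exact h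
  have c1 : Commute (g⁻¹ * t * g) (g⁻¹ * (g⁻¹ * (g⁻¹ * t * g) * g) * g) := by
    have h := c0.map (MulAut.conj g⁻¹).toMonoidHom
    simpa [mul_assoc] using h
  set t1 := g⁻¹ * t * g with ht1
  set t2 := g⁻¹ * t1 * g with ht2
  set t3 := g⁻¹ * t2 * g with ht3
  have e3 : g⁻¹ * t3 * g = t := by
    rw [ht3, ht2, ht1]
    have : g⁻¹ * (g⁻¹ * (g⁻¹ * (g⁻¹ * t * g) * g) * g) * g =
        (g * g * (g * g))⁻¹ * t * (g * g * (g * g)) := by group
    rw [this, hh]
    group
  have hs1 : t1 ^ 2 = 1 := conj2 g
  have hs2 : t2 ^ 2 = 1 := by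
    have := conj2 (g * g)
    have e : (g * g)⁻¹ * t * (g * g) = t2 := by
      rw [ht2, ht1]
      group
    rwa [e] at this
  have hs3 : t3 ^ 2 = 1 := by
    have := conj2 (g * g * g)
    have e : (g * g * g)⁻¹ * t * (g * g * g) = t3 := by
      rw [ht3, ht2, ht1]
      group
    rwa [e] at this
  obtain ⟨r1, r2, r3⟩ := four_groups hG t t1 t2 t3 ht hs1 hs2 hs3 c0.eq c1.eq
  set M := Subgroup.closure {t, t1, t2, t3} with hM
  have m0 : t ∈ M := Subgroup.subset_closure (Or.inl rfl)
  have m1 : t1 ∈ M := Subgroup.subset_closure (Or.inr (Or.inl rfl))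
  have m2 : t2 ∈ M := Subgroup.subset_closure (Or.inr (Or.inr (Or.inl rfl)))
  have m3 : t3 ∈ M := Subgroup.subset_closure (Or.inr (Or.inr (Or.inr rfl)))
  have hcj : ∀ x ∈ M, g⁻¹ * x * g ∈ M := by
    intro x hx
    rw [hM] at hx
    induction hx using Subgroup.closure_induction with
    | mem x hx =>
      rcases hx with rfl | rfl | rfl | hx
      · exact m1
      · exact m2
      · exact m3
      · rw [Set.mem_singleton_iff] at hx
        rw [hx, e3]
        exact m0
    | one => simp
    | mul a b _ _ ha hb =>
      have : g⁻¹ * (a * b) * g = g⁻¹ * a * g * (g⁻¹ * b * g) := by group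
      rw [this]
      exact Subgroup.mul_mem _ ha hb
    | inv a _ ha =>
      have : g⁻¹ * a⁻¹ * g = (g⁻¹ * a * g)⁻¹ := by group
      rw [this]
      exact Subgroup.inv_mem _ ha
  have hcj2 : ∀ x ∈ M, g * x * g⁻¹ ∈ M := by
    intro x hx
    have h := hcj _ (hcj _ (hcj _ hx))
    have e : g⁻¹ * (g⁻¹ * (g⁻¹ * x * g) * g) * g =
        g * ((g * g * (g * g))⁻¹ * x * (g * g * (g * g))) * g⁻¹ := by group
    rw [e, hh] at h
    simpa using h
  have hgn : g ∈ Subgroup.normalizer (M : Set G) := by
    rw [Subgroup.mem_normalizer_iff]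
    intro x
    constructor
    · exact hcj2 x
    · intro hx
      have h := hcj _ hx
      have e : g⁻¹ * (g * x * g⁻¹) * g = x := by group
      rwa [e] at h
  have hZ : ∀ x ∈ Subgroup.closure {g}, x ∈ ({1, g, g ^ 2, g ^ 3} : Finset G) := by
    intro x hx
    rw [Subgroup.mem_closure_singleton] at hx
    obtain ⟨k, rfl⟩ := hx
    have h4 : g ^ (4 : ℤ) = 1 := by
      have : g ^ (4 : ℤ) = g ^ 4 := by norm_cast
      rw [this, hg]
    have hk : g ^ k = g ^ (k % 4) := by
      conv_lhs => rw [← Int.emod_add_mul_ediv k 4, zpow_add, zpow_mul, h4, one_zpow, mul_one]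
    rw [hk]
    have h0 : 0 ≤ k % 4 := Int.emod_nonneg _ (by norm_num)
    have h5 : k % 4 < 4 := Int.emod_lt_of_pos _ (by norm_num)
    generalize k % 4 = m at *
    simp only [Finset.mem_insert, Finset.mem_singleton]
    interval_cases m
    · left; simp
    · right; left; simp
    · right; right; left
      norm_cast
    · right; right; right
      norm_cast
  have hfZ : Finite (Subgroup.closure {g} : Subgroup G) :=
    ((Finset.finite_toSet _).subset hZ).to_subtype
  have hcZ : Nat.card (Subgroup.closure {g} : Subgroup G) ≤ 4 := by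
    have h3 : Nat.card (Subgroup.closure {g} : Subgroup G) ≤
        Nat.card (({1, g, g ^ 2, g ^ 3} : Finset G) : Set G) :=
      Nat.card_mono (Finset.finite_toSet _) hZ
    refine h3.trans ?_
    rw [Nat.card_coe_set_eq, Set.ncard_coe_finset]
    exact Finset.card_le_four
  have hpZ : IsPGroup 2 (Subgroup.closure {g} : Subgroup G) := by
    rintro ⟨x, hx⟩
    refine ⟨2, Subtype.ext ?_⟩
    rw [Subgroup.mem_closure_singleton] at hx
    obtain ⟨k, rfl⟩ := hx
    show (g ^ k) ^ (2 ^ 2) = 1
    rw [← zpow_natCast, ← zpow_mul, mul_comm, zpow_mul, zpow_natCast]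
    norm_num [hg]
  have hnn : Subgroup.closure {g} ≤ Subgroup.normalizer (M : Set G) := by
    rw [Subgroup.closure_le, Set.singleton_subset_iff]
    exact hgn
  obtain ⟨f1, f2⟩ := sup_fin ⟨r1, r2⟩ ⟨hfZ, hpZ⟩ hnn
  have f3 := (sup_card hnn).trans (Nat.mul_le_mul hcZ r3)
  have hle : Subgroup.closure {t, g} ≤ Subgroup.closure {g} ⊔ M := by
    rw [Subgroup.closure_le]
    rintro x (rfl | hx)
    · exact Subgroup.mem_sup_right m0
    · exact Subgroup.mem_sup_left (Subgroup.subset_closure hx)
  refine ⟨Set.Finite.to_subtype ((Set.toFinite _).subset hle), f2.to_le hle, ?_⟩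
  refine ((Nat.card_mono (Set.toFinite _) hle).trans f3).trans ?_
  norm_num

end Pool.Agent.Lib.KFG.FourGroups
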