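import Pool.Agent.Lib.KFG.Basic

/-!
# An elementary abelian group of order at most eight and a four-group

Used in `Results/MP_da62d3_al`. The commutators of the elements `N` with the conjugates of `b`
and `d` commute with all conjugates of `b` and `d` if `A` has at most eight elements.
-/

open scoped commutatorElement

namespace Pool.Agent.Lib.KFG

variable {G : Type*} [Group G]

theorem com_form {x y : G} (hx : x * x = 1) (hy : y * y = 1) : ⁅x, y⁆ = x * cj y x := by
  rw [com_eq hx hy]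
  unfold cj
  group

theorem closure_sq {S : Set G} (hc : ∀ x ∈ S, ∀ y ∈ S, Commute x y) (h2 : ∀ x ∈ S, x * x = 1) :
    ∀ x ∈ Subgroup.closure S, x * x = 1 := by
  have hcomm := closure_comm hc
  intro x hx
  induction hx using Subgroup.closure_induction with
  | mem x hx => exact h2 x hx
  | one => exact one_mul 1
  | mul a b ha' hb' ha hb => exact mul_sq ha hb (hcomm a ha' b hb')
  | inv a _ ha => rw [← mul_inv_rev, ha, inv_one]

/-- all conjugates of `g` under `E` commute with `w` -/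
def CC (E : Subgroup G) (w g : G) : Prop := ∀ k ∈ E, Commute (cj k g) w

theorem CC.self (H : Hyp G) {E : Subgroup G} (hE : ∀ x ∈ E, x * x = 1) {w : G} (hw : w * w = 1) :
    CC E w w := fun k hk => (comm_conj H (hE k hk) hw).symm

theorem CC.mul {E : Subgroup G} (hE : ∀ x ∈ E, x * x = 1) {w g g' : G} (h : CC E w g)
    (h' : CC E w g') : CC E w (g * g') := by
  intro k hk
  rw [cj_mul (hE k hk)]
  exact (h k hk).mul_left (h' k hk)

theorem CC.cj {E : Subgroup G} (hc : ∀ x ∈ E, ∀ y ∈ E, Commute x y) {w g f : G} (hf : f ∈ E)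
    (h : CC E w g) : CC E w (KFG.cj f g) := by
  intro k hk
  rw [cj_cj (hc k hk f hf)]
  exact h _ (E.mul_mem hk hf)

theorem CC.com {E : Subgroup G} (hE : ∀ x ∈ E, x * x = 1)
    (hc : ∀ x ∈ E, ∀ y ∈ E, Commute x y) {w g f : G} (hg : g * g = 1) (hf : f ∈ E)
    (h : CC E w g) : CC E w ⁅g, f⁆ := by
  rw [com_form hg (hE f hf)]
  exact h.mul hE (h.cj hc hf)

theorem CC.comm {E : Subgroup G} {w g : G} (h : CC E w g) : Commute g w := by
  have := h 1 E.one_mem
  simpa [KFG.cj] using this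

theorem com_comm {g c p : G} (h1 : Commute g p) (h2 : Commute c p) : Commute ⁅g, c⁆ p := by
  rw [commutatorElement_def]
  exact ((h1.mul_left h2).mul_left h1.inv_left).mul_left h2.inv_left

/-- an elementary abelian group of order at most eight is the union of two cosets of a four-group -/
theorem cover {A : Subgroup G} [Finite A] (hsq : ∀ x ∈ A, x * x = 1) (hA : Nat.card A ≤ 8)
    {s t w q : G} (hs : s ∈ A) (ht : t ∈ A) (hw : w ∈ A) (hq : q ∈ A) (s1 : s ≠ 1) (t1 : t ≠ 1)
    (st : s ≠ t) (w1 : w ≠ 1) (ws : w ≠ s) (wt : w ≠ t) (wst : w ≠ s * t) :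
    (q = 1 ∨ q = s ∨ q = t ∨ q = s * t) ∨
      (q = w * 1 ∨ q = w * s ∨ q = w * t ∨ q = w * (s * t)) := by
  classical
  have comm : ∀ {x y : G}, x ∈ A → y ∈ A → x * y = y * x := by
    intro x y hx hy
    have h := hsq _ (A.mul_mem hx hy)
    have h1 := inv_eq h
    rw [mul_inv_rev, inv_eq (hsq x hx), inv_eq (hsq y hy)] at h1
    exact h1.symm
  have ss := hsq s hs
  have tt := hsq t ht
  have ts : t * s = s * t := comm ht hs
  have sst : s * (s * t) = t := by rw [← mul_assoc, ss, one_mul]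
  have tst : t * (s * t) = s := by rw [← ts, ← mul_assoc, tt, one_mul]
  have sts : s * t * s = t := by rw [mul_assoc, ts, sst]
  have stt : s * t * t = s := by rw [mul_assoc, tt, mul_one]
  have stst : s * t * (s * t) = 1 := hsq _ (A.mul_mem hs ht)
  set F : Finset G := {1, s, t, s * t} with hF
  have memF : ∀ g, g ∈ F ↔ g = 1 ∨ g = s ∨ g = t ∨ g = s * t := by
    intro g
    simp only [hF, Finset.mem_insert, Finset.mem_singleton]
  have hmulF : ∀ f ∈ F, ∀ g ∈ F, f * g ∈ F := by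
    intro f hf g hg
    rw [memF] at hf hg ⊢
    rcases hf with rfl | rfl | rfl | rfl <;> rcases hg with rfl | rfl | rfl | rfl <;>
      simp [ss, tt, ts, sst, tst, sts, stt, stst]
  have hsqF : ∀ f ∈ F, f * f = 1 := by
    intro f hf
    rw [memF] at hf
    rcases hf with rfl | rfl | rfl | rfl
    · exact one_mul 1
    · exact ss
    · exact tt
    · exact stst
  have hFA : ∀ f ∈ F, f ∈ A := by
    intro f hf
    rw [memF] at hf
    rcases hf with rfl | rfl | rfl | rfl
    · exact A.one_mem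
    · exact hs
    · exact ht
    · exact A.mul_mem hs ht
  have st1 : s * t ≠ 1 := by
    intro h
    apply st
    rw [← inv_eq tt]
    exact eq_inv_of_mul_eq_one_left h
  have sst' : s ≠ s * t := by
    intro h
    apply t1
    have : s * t = s * 1 := by rw [mul_one, ← h]
    exact mul_left_cancel this
  have tst' : t ≠ s * t := by
    intro h
    apply s1
    have : s * t = 1 * t := by rw [one_mul, ← h]
    exact mul_right_cancel this
  have hcF : F.card = 4 := by
    rw [hF, Finset.card_insert_of_notMem, Finset.card_insert_of_notMem,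
      Finset.card_insert_of_notMem, Finset.card_singleton]
    · simpa using tst'
    · simp only [Finset.mem_insert, Finset.mem_singleton, not_or]
      exact ⟨st, sst'⟩
    · simp only [Finset.mem_insert, Finset.mem_singleton, not_or]
      exact ⟨s1.symm, t1.symm, st1.symm⟩
  have hwF : w ∉ F := by
    rw [memF]
    rintro (h | h | h | h)
    · exact w1 h
    · exact ws h
    · exact wt h
    · exact wst h
  by_contra hcon
  rw [not_or] at hcon
  obtain ⟨hc1, hc2⟩ := hcon
  have hqF : q ∉ F := by rw [memF]; exact hc1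
  have hqwF : ∀ f ∈ F, q ≠ w * f := by
    intro f hf h
    apply hc2
    rw [memF] at hf
    rcases hf with rfl | rfl | rfl | rfl
    · exact Or.inl h
    · exact Or.inr (Or.inl h)
    · exact Or.inr (Or.inr (Or.inl h))
    · exact Or.inr (Or.inr (Or.inr h))
  set F2 := F.image (fun f => w * f) with hF2
  set F3 := F.image (fun f => q * f) with hF3
  have c2 : F2.card = 4 := by
    rw [hF2, Finset.card_image_of_injective _ (mul_right_injective w), hcF]
  have c3 : F3.card = 4 := by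
    rw [hF3, Finset.card_image_of_injective _ (mul_right_injective q), hcF]
  have d1 : Disjoint F F2 := by
    rw [Finset.disjoint_left]
    intro f hf hf2
    obtain ⟨g, hg, hgf⟩ := Finset.mem_image.1 hf2
    apply hwF
    have : w = f * g := by
      rw [← hgf]
      show w = w * g * g
      rw [mul_assoc, hsqF g hg, mul_one]
    rw [this]
    exact hmulF f hf g hg
  have d2 : Disjoint (F ∪ F2) F3 := by
    rw [Finset.disjoint_left]
    intro f hf hf3
    obtain ⟨g, hg, hgf⟩ := Finset.mem_image.1 hf3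
    have e : q = f * g := by
      rw [← hgf]
      show q = q * g * g
      rw [mul_assoc, hsqF g hg, mul_one]
    rcases Finset.mem_union.1 hf with hf | hf
    · apply hqF
      rw [e]
      exact hmulF f hf g hg
    · obtain ⟨g', hg', hgf'⟩ := Finset.mem_image.1 hf
      refine hqwF (g' * g) (hmulF g' hg' g hg) ?_
      rw [e, ← hgf']
      show w * g' * g = w * (g' * g)
      rw [mul_assoc]
  have hfin : (A : Set G).Finite := Set.toFinite _
  have hsub : F ∪ F2 ∪ F3 ⊆ hfin.toFinset := by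
    intro g hg
    rw [Set.Finite.mem_toFinset]
    rcases Finset.mem_union.1 hg with hg | hg
    · rcases Finset.mem_union.1 hg with hg | hg
      · exact hFA g hg
      · obtain ⟨f, hf, rfl⟩ := Finset.mem_image.1 hg
        exact A.mul_mem hw (hFA f hf)
    · obtain ⟨f, hf, rfl⟩ := Finset.mem_image.1 hg
      exact A.mul_mem hq (hFA f hf)
  have hle := Finset.card_le_card hsub
  rw [Finset.card_union_of_disjoint d2, Finset.card_union_of_disjoint d1, hcF, c2, c3,
    ← Nat.card_eq_card_finite_toFinset] at hle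
  have : Nat.card (A : Set G) ≤ 8 := hA
  omega

/-- the four commutation relations -/
def Q (b d g u v : G) : Prop :=
  (Commute ⁅g, cj u b⁆ (cj v b) ∧ Commute ⁅g, cj u b⁆ (cj v d)) ∧
    (Commute ⁅g, cj u d⁆ (cj v b) ∧ Commute ⁅g, cj u d⁆ (cj v d))

namespace Std

variable {A : Subgroup G} {b d : G}

theorem Sb_sq (S : Std A b d) : ∀ x ∈ Subgroup.closure (Sb A b), x * x = 1 := by
  refine closure_sq ?_ ?_
  · rintro _ ⟨x, hx, rfl⟩ _ ⟨y, hy, rfl⟩
    exact S.bb hx hy
  · rintro _ ⟨x, hx, rfl⟩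
    exact cj_sq (S.sq x hx) S.hb

theorem Sb_comm (S : Std A b d) :
    ∀ x ∈ Subgroup.closure (Sb A b), ∀ y ∈ Subgroup.closure (Sb A b), Commute x y := by
  refine closure_comm ?_
  rintro _ ⟨x, hx, rfl⟩ _ ⟨y, hy, rfl⟩
  exact S.bb hx hy

theorem mem_Sb {x : G} (hx : x ∈ A) : cj x b ∈ Subgroup.closure (Sb A b) :=
  Subgroup.subset_closure ⟨x, hx, rfl⟩

theorem T1 (S : Std A b d) {x y z u : G} (hx : x ∈ A) (hy : y ∈ A) (hz : z ∈ A) (hu : u ∈ A) :
    Commute ⁅N b d x y z, cj u b⁆ (cj y d) := by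
  have hw := cj_sq (S.sq y hy) S.hd
  have hE := S.Sb_sq
  have hc := S.Sb_comm
  have h0 : CC (Subgroup.closure (Sb A b)) (cj y d) (W b d x y) := by
    unfold W
    rw [com_symm S.H (cj_sq (S.sq x hx) S.hb) hw]
    exact (CC.self S.H hE hw).com hE hc hw (mem_Sb hx)
  have h1 : CC (Subgroup.closure (Sb A b)) (cj y d) (N b d x y z) :=
    h0.com hE hc (S.W_sq hx hy) (mem_Sb hz)
  exact (h1.com hE hc (S.N_sq hx hy hz) (mem_Sb hu)).comm

theorem Qy (S : Std A b d) {x y z u : G} (hx : x ∈ A) (hy : y ∈ A) (hz : z ∈ A) (hu : u ∈ A) :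
    Q b d (N b d x y z) u y := by
  have hN := S.N_sq hx hy hz
  have t1 := (triple S.H hN (cj_sq (S.sq y hy) S.hb) (cj_sq (S.sq u hu) S.hd)
    (S.N_by hx hy hz)).1
  have t2 := (triple S.H hN (cj_sq (S.sq y hy) S.hd) (cj_sq (S.sq u hu) S.hb)
    (S.N_dy hx hy hz)).1
  have t3 : ⁅⁅N b d x y z, cj u b⁆, cj y d⁆ = 1 :=
    commutatorElement_eq_one_iff_commute.2 (S.T1 hx hy hz hu)
  have e : ⁅cj y d, cj u b⁆ = ⁅cj y b, cj u d⁆ := S.W_swap hy hu
  refine ⟨⟨com_comm (S.N_by hx hy hz) (S.bb hu hy), S.T1 hx hy hz hu⟩, ?_,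
    com_comm (S.N_dy hx hy hz) (S.symm.bb hu hy)⟩
  rw [← commutatorElement_eq_one_iff_commute, t1, ← e, ← t2, t3]

theorem Qx (S : Std A b d) {x y z u : G} (hx : x ∈ A) (hy : y ∈ A) (hz : z ∈ A) (hu : u ∈ A) :
    Q b d (N b d x y z) u x := by
  rw [S.N_12 hx hy]
  exact S.Qy hy hx hz hu

theorem Qz (S : Std A b d) {x y z u : G} (hx : x ∈ A) (hy : y ∈ A) (hz : z ∈ A) (hu : u ∈ A) :
    Q b d (N b d x y z) u z := by
  rw [(S.N_13 hx hy hz).1]
  exact S.Qx hz hy hx hu

theorem Qv (S : Std A b d) {x y z u : G} (hx : x ∈ A) (hy : y ∈ A) (hz : z ∈ A) (hu : u ∈ A) :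
    Q b d (N b d x y z) u (x * y * z) := by
  rw [S.N_shift hx hy hz]
  exact S.Qy hz (A.mul_mem (A.mul_mem hx hy) hz) hx hu

theorem exch (S : Std A b d) {g k y : G} (hg : g * g = 1) (hk : k ∈ A) (hy : y ∈ A)
    (hgb : Commute g (cj y b)) : ⁅g, cj (k * y) b⁆ = ⁅cj k g, cj y b⁆ := by
  have hk2 := S.sq k hk
  have hp := cj_sq (S.sq y hy) S.hb
  have h := key S.H hp hg (cj_sq hk2 hp) (cj_sq hk2 hg) (comm_conj S.H hk2 hp)
    (comm_conj S.H hk2 hg) (by
      rw [← cj_mul hk2]
      exact comm_conj S.H hk2 (mul_sq hp hg hgb.symm))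
  rwa [cj_cj (S.comm hk hy)] at h

theorem cj_N (S : Std A b d) {k x y z : G} (hk : k ∈ A) (hx : x ∈ A) (hy : y ∈ A) (hz : z ∈ A) :
    cj k (N b d x y z) = N b d (k * x) (k * y) (k * z) := by
  have hk2 := S.sq k hk
  unfold N W
  rw [cj_com hk2, cj_com hk2, cj_cj (S.comm hk hx), cj_cj (S.comm hk hy), cj_cj (S.comm hk hz)]

theorem Q_shift (S : Std A b d) {x y z u v : G} (hx : x ∈ A) (hy : y ∈ A) (hz : z ∈ A)
    (hu : u ∈ A) (h : Q b d (N b d (u * x * x) (u * x * y) (u * x * z)) x v) :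
    Q b d (N b d x y z) u v := by
  have hk : u * x ∈ A := A.mul_mem hu hx
  have hN := S.N_sq hx hy hz
  have e1 := S.exch hN hk hx (S.N_bx hx hy hz)
  have e2 := S.symm.exch hN hk hx (S.N_dx hx hy hz)
  have e3 : u * x * x = u := by rw [mul_assoc, S.sq x hx, mul_one]
  rw [S.cj_N hk hx hy hz] at e1 e2
  have e1' : ⁅N b d x y z, cj u b⁆ = ⁅N b d (u * x * x) (u * x * y) (u * x * z), cj x b⁆ := by
    rw [← e1, e3]
  have e2' : ⁅N b d x y z, cj u d⁆ = ⁅N b d (u * x * x) (u * x * y) (u * x * z), cj x d⁆ := by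
    rw [← e2, e3]
  unfold Q at h ⊢
  rw [e1', e2']
  exact h

/-- all commutators of the elements `N` with the conjugates of `b` and `d` commute with the
conjugates of `b` and `d` -/
theorem Q_all (S : Std A b d) [Finite A] (hA : Nat.card A ≤ 8) {x y z u v : G} (hx : x ∈ A)
    (hy : y ∈ A) (hz : z ∈ A) (hu : u ∈ A) (hv : v ∈ A) : Q b d (N b d x y z) u v := by
  have triv : ⁅N b d x y z, cj u b⁆ = 1 → ⁅N b d x y z, cj u d⁆ = 1 →
      Q b d (N b d x y z) u v := by
    intro h1 h2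
    unfold Q
    rw [h1, h2]
    exact ⟨⟨Commute.one_left _, Commute.one_left _⟩, Commute.one_left _, Commute.one_left _⟩
  by_cases hdeg : x = y ∨ x = z ∨ y = z
  · have h := S.N_deg hx hy hdeg
    apply triv <;> rw [h, commutatorElement_one_left]
  rw [not_or, not_or] at hdeg
  obtain ⟨hxy, hxz, hyz⟩ := hdeg
  have hxyz : x * y * z ∈ A := A.mul_mem (A.mul_mem hx hy) hz
  by_cases hu1 : u = x
  · subst hu1
    exact triv (commutatorElement_eq_one_iff_commute.2 (S.N_bx hx hy hz))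
      (commutatorElement_eq_one_iff_commute.2 (S.N_dx hx hy hz))
  by_cases hu2 : u = y
  · subst hu2
    exact triv (commutatorElement_eq_one_iff_commute.2 (S.N_by hx hy hz))
      (commutatorElement_eq_one_iff_commute.2 (S.N_dy hx hy hz))
  by_cases hu3 : u = z
  · subst hu3
    exact triv (commutatorElement_eq_one_iff_commute.2 (S.N_bz hx hy hz))
      (commutatorElement_eq_one_iff_commute.2 (S.N_dz hx hy hz))
  by_cases hu4 : u = x * y * z
  · subst hu4
    apply triv
    · rw [S.N_shift hx hy hz]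
      exact commutatorElement_eq_one_iff_commute.2 (S.N_by hz hxyz hx)
    · rw [S.N_shift hx hy hz]
      exact commutatorElement_eq_one_iff_commute.2 (S.N_dy hz hxyz hx)
  have xx := S.sq x hx
  have cxy : y * x = x * y := (S.comm hy hx).eq
  have xxg : ∀ g : G, x * (x * g) = g := by
    intro g
    rw [← mul_assoc, xx, one_mul]
  have hux : u * x ∈ A := A.mul_mem hu hx
  have hc := cover (A := A) S.sq hA (s := x * y) (t := x * z) (w := x * u) (q := x * v)
    (A.mul_mem hx hy) (A.mul_mem hx hz) (A.mul_mem hx hu) (A.mul_mem hx hv)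
    (fun h => hxy (by rw [← mul_one x, ← h, xxg]))
    (fun h => hxz (by rw [← mul_one x, ← h, xxg]))
    (fun h => hyz (mul_left_cancel h))
    (fun h => hu1 (by
      have : x * (x * u) = x * 1 := by rw [h]
      rw [xxg, mul_one] at this
      exact this))
    (fun h => hu2 (mul_left_cancel h))
    (fun h => hu3 (mul_left_cancel h))
    (fun h => hu4 (by
      have : x * (x * u) = x * (x * y * (x * z)) := by rw [h]
      rw [xxg] at this
      rw [this]
      calc x * (x * y * (x * z)) = x * (x * (y * x) * z) := by group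
        _ = x * (x * (x * y) * z) := by rw [cxy]
        _ = x * (y * z) := by rw [xxg]
        _ = x * y * z := by group))
  have hvq : ∀ q : G, x * v = q → v = x * q := by
    intro q h
    rw [← h, xxg]
  rcases hc with (h | h | h | h) | (h | h | h | h)
  · have e := hvq _ h
    rw [mul_one] at e
    rw [e]
    exact S.Qx hx hy hz hu
  · have e := hvq _ h
    rw [xxg] at e
    rw [e]
    exact S.Qy hx hy hz hu
  · have e := hvq _ h
    rw [xxg] at e
    rw [e]
    exact S.Qz hx hy hz hu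
  · have e : v = x * y * z := by
      rw [hvq _ h]
      calc x * (x * y * (x * z)) = x * (x * (y * x) * z) := by group
        _ = x * (x * (x * y) * z) := by rw [cxy]
        _ = x * (y * z) := by rw [xxg]
        _ = x * y * z := by group
    rw [e]
    exact S.Qv hx hy hz hu
  · refine S.Q_shift hx hy hz hu ?_
    have e : v = u * x * x := by
      rw [hvq _ h, mul_one, xxg, mul_assoc, xx, mul_one]
    rw [e]
    exact S.Qx (A.mul_mem hux hx) (A.mul_mem hux hy) (A.mul_mem hux hz) hx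
  · refine S.Q_shift hx hy hz hu ?_
    have e : v = u * x * y := by
      rw [hvq _ h]
      calc x * (x * u * (x * y)) = x * (x * (u * x * y)) := by group
        _ = u * x * y := xxg _
    rw [e]
    exact S.Qy (A.mul_mem hux hx) (A.mul_mem hux hy) (A.mul_mem hux hz) hx
  · refine S.Q_shift hx hy hz hu ?_
    have e : v = u * x * z := by
      rw [hvq _ h]
      calc x * (x * u * (x * z)) = x * (x * (u * x * z)) := by group
        _ = u * x * z := xxg _
    rw [e]
    exact S.Qz (A.mul_mem hux hx) (A.mul_mem hux hy) (A.mul_mem hux hz) hx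
  · refine S.Q_shift hx hy hz hu ?_
    have e : v = u * x * x * (u * x * y) * (u * x * z) := by
      rw [hvq _ h]
      have uu := S.sq _ hux
      calc x * (x * u * (x * y * (x * z))) = x * (x * (u * (x * (y * x) * z))) := by group
        _ = u * (x * (y * x) * z) := xxg _
        _ = u * (x * (x * y) * z) := by rw [cxy]
        _ = u * (y * z) := by rw [xxg]
        _ = u * (1 * y) * z := by group
        _ = u * (x * x * y) * z := by rw [xx]
        _ = u * x * (x * y) * 1 * z := by group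
        _ = u * x * (x * y) * (u * x * (u * x)) * z := by rw [uu]
        _ = u * x * (x * y * (u * x)) * (u * x * z) := by group
        _ = u * x * (x * (u * x * y)) * (u * x * z) := by
          rw [mul_assoc x y, (S.comm hy hux).eq]
        _ = u * x * x * (u * x * y) * (u * x * z) := by group
    rw [e]
    exact S.Qv (A.mul_mem hux hx) (A.mul_mem hux hy) (A.mul_mem hux hz) hx

end Std

/-! ### finiteness -/

/-- adding finitely many involutions which commute modulo a finite `2`-group normalised by them -/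
theorem stage {R S : Set G}
    (hR : Finite (Subgroup.closure R) ∧ IsPGroup 2 (Subgroup.closure R)) (hS : S.Finite)
    (h2 : ∀ s ∈ S, s * s = 1) (h1 : ∀ s ∈ S, ∀ r ∈ R, s * r * s⁻¹ ∈ Subgroup.closure R)
    (h3 : ∀ s ∈ S, ∀ s' ∈ S, ⁅s, s'⁆ ∈ Subgroup.closure R) :
    Finite (Subgroup.closure (S ∪ R)) ∧ IsPGroup 2 (Subgroup.closure (S ∪ R)) := by
  have key : ∀ T : Set G, T.Finite → T ⊆ S →
      Finite (Subgroup.closure (T ∪ R)) ∧ IsPGroup 2 (Subgroup.closure (T ∪ R)) := by
    intro T hT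
    induction T, hT using Set.Finite.induction_on with
    | empty =>
      intro _
      rw [Set.empty_union]
      exact hR
    | @insert a T _ _ ih =>
      intro hTS
      have ha : a ∈ S := hTS (Set.mem_insert _ _)
      have hT' : T ⊆ S := fun y hy => hTS (Set.mem_insert_of_mem _ hy)
      have hK : Finite (Subgroup.closure ({a} : Set G)) ∧
          IsPGroup 2 (Subgroup.closure ({a} : Set G)) := by
        refine fin_closure (Set.finite_singleton a) ?_ ?_
        · intro x hx y hy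
          rw [Set.mem_singleton_iff] at hx hy
          rw [hx, hy]
        · intro x hx
          rw [Set.mem_singleton_iff] at hx
          rw [hx]
          exact h2 a ha
      have hn : Subgroup.closure ({a} : Set G) ≤
          Subgroup.normalizer (Subgroup.closure (T ∪ R) : Set G) := by
        refine normalizes ?_ ?_
        · intro x hx
          rw [Set.mem_singleton_iff] at hx
          rw [hx]
          exact h2 a ha
        · intro x hx r hr
          rw [Set.mem_singleton_iff] at hx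
          rw [hx]
          rcases hr with hr | hr
          · have e : a * r * a⁻¹ = ⁅a, r⁆ * r := by
              rw [commutatorElement_def]; group
            rw [e]
            exact Subgroup.mul_mem _
              (Subgroup.closure_mono Set.subset_union_right (h3 a ha r (hT' hr)))
              (Subgroup.subset_closure (Or.inl hr))
          · exact Subgroup.closure_mono Set.subset_union_right (h1 a ha r hr)
      have := sup_fin (ih hT') hK hn
      rw [← Subgroup.closure_union] at this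
      rw [Set.insert_eq, Set.union_assoc]
      exact this
  exact key S hS (le_refl _)

namespace Std

variable {A : Subgroup G} {b d : G}

/-- the commutators of the elements `N` with the generators -/
def ST1 (A : Subgroup G) (b d : G) : Set G :=
  {g | ∃ x ∈ A, ∃ y ∈ A, ∃ z ∈ A, ∃ u ∈ A,
    g = ⁅N b d x y z, cj u b⁆ ∨ g = ⁅N b d x y z, cj u d⁆}

def ST (A : Subgroup G) (b d : G) : Set G := ST1 A b d ∪ ST1 A d b

def SM (A : Subgroup G) (b d : G) : Set G := SN A b d ∪ SN A d b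

theorem ST1_fin [Finite A] : (ST1 A b d).Finite := by
  refine ((Set.finite_range fun x : A × A × A × A =>
    ⁅N b d (x.1 : G) (x.2.1 : G) (x.2.2.1 : G), cj (x.2.2.2 : G) b⁆).union
    (Set.finite_range fun x : A × A × A × A =>
    ⁅N b d (x.1 : G) (x.2.1 : G) (x.2.2.1 : G), cj (x.2.2.2 : G) d⁆)).subset ?_
  rintro _ ⟨x, hx, y, hy, z, hz, u, hu, rfl | rfl⟩
  · exact Or.inl ⟨(⟨x, hx⟩, ⟨y, hy⟩, ⟨z, hz⟩, ⟨u, hu⟩), rfl⟩
  · exact Or.inr ⟨(⟨x, hx⟩, ⟨y, hy⟩, ⟨z, hz⟩, ⟨u, hu⟩), rfl⟩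

theorem ST1_sq (S : Std A b d) : ∀ g ∈ ST1 A b d, g * g = 1 := by
  rintro _ ⟨x, hx, y, hy, z, hz, u, hu, rfl | rfl⟩
  · exact com_inv S.H (S.N_sq hx hy hz) (cj_sq (S.sq u hu) S.hb)
  · exact com_inv S.H (S.N_sq hx hy hz) (cj_sq (S.sq u hu) S.hd)

theorem ST_sq (S : Std A b d) : ∀ g ∈ ST A b d, g * g = 1 := by
  rintro g (hg | hg)
  · exact S.ST1_sq g hg
  · exact S.symm.ST1_sq g hg

theorem ST1_cl (S : Std A b d) [Finite A] (hA : Nat.card A ≤ 8) {n v : G} (hn : n ∈ ST1 A b d)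
    (hv : v ∈ Sb A b ∪ Sb A d) : Commute n v := by
  obtain ⟨x, hx, y, hy, z, hz, u, hu, rfl | rfl⟩ := hn <;>
    rcases hv with ⟨w, hw, rfl⟩ | ⟨w, hw, rfl⟩
  · exact (S.Q_all hA hx hy hz hu hw).1.1
  · exact (S.Q_all hA hx hy hz hu hw).1.2
  · exact (S.Q_all hA hx hy hz hu hw).2.1
  · exact (S.Q_all hA hx hy hz hu hw).2.2

/-- the elements of `ST` commute with the group generated by the conjugates of `b` and `d` -/
theorem ST_cl (S : Std A b d) [Finite A] (hA : Nat.card A ≤ 8) {n v : G} (hn : n ∈ ST A b d)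
    (hv : v ∈ Subgroup.closure (Sb A b ∪ Sb A d)) : Commute n v := by
  have h1 : ∀ n ∈ ST A b d, ∀ v ∈ Sb A b ∪ Sb A d, Commute n v := by
    rintro n (hn | hn) v hv
    · exact S.ST1_cl hA hn hv
    · exact S.symm.ST1_cl hA hn hv.symm
  exact closure_comm h1 n (Subgroup.subset_closure hn) v hv

theorem cl_symm : Subgroup.closure (Sb A d ∪ Sb A b) = Subgroup.closure (Sb A b ∪ Sb A d) := by
  rw [Set.union_comm]

theorem b_mem {x : G} (hx : x ∈ A) : cj x b ∈ Subgroup.closure (Sb A b ∪ Sb A d) :=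
  Subgroup.subset_closure (Or.inl ⟨x, hx, rfl⟩)

theorem d_mem {x : G} (hx : x ∈ A) : cj x d ∈ Subgroup.closure (Sb A b ∪ Sb A d) :=
  Subgroup.subset_closure (Or.inr ⟨x, hx, rfl⟩)

theorem SM_cl {g : G} (hg : g ∈ SM A b d) : g ∈ Subgroup.closure (Sb A b ∪ Sb A d) := by
  rcases hg with ⟨x, hx, y, hy, z, hz, rfl⟩ | ⟨x, hx, y, hy, z, hz, rfl⟩
  · exact N_mem hx hy hz
  · rw [← cl_symm]
    exact N_mem hx hy hz

theorem SM_sq (S : Std A b d) : ∀ g ∈ SM A b d, g * g = 1 := by
  rintro g (⟨x, hx, y, hy, z, hz, rfl⟩ | ⟨x, hx, y, hy, z, hz, rfl⟩)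
  · exact S.N_sq hx hy hz
  · exact S.symm.N_sq hx hy hz

/-- the commutators of the elements `N` with the generators -/
theorem SM_com {g u : G} (hg : g ∈ SM A b d) (hu : u ∈ A) :
    ⁅g, cj u b⁆ ∈ ST A b d ∧ ⁅g, cj u d⁆ ∈ ST A b d := by
  rcases hg with ⟨x, hx, y, hy, z, hz, rfl⟩ | ⟨x, hx, y, hy, z, hz, rfl⟩
  · exact ⟨Or.inl ⟨x, hx, y, hy, z, hz, u, hu, Or.inl rfl⟩,
      Or.inl ⟨x, hx, y, hy, z, hz, u, hu, Or.inr rfl⟩⟩
  · exact ⟨Or.inr ⟨x, hx, y, hy, z, hz, u, hu, Or.inr rfl⟩,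
      Or.inr ⟨x, hx, y, hy, z, hz, u, hu, Or.inl rfl⟩⟩

theorem SM_W (S : Std A b d) [Finite A] (hA : Nat.card A ≤ 8) {g u v : G} (hg : g ∈ SM A b d)
    (hu : u ∈ A) (hv : v ∈ A) : Commute g (W b d u v) := by
  have h1 := (SM_com hg hu).1
  have h2 := (SM_com hg hv).2
  exact comm_of_com (S.ST_cl hA h1 (SM_cl hg)) (S.ST_cl hA h1 (b_mem hu))
    (S.ST_cl hA h1 (d_mem hv)) (S.ST_cl hA h2 (b_mem hu)) (S.ST_cl hA h2 (d_mem hv))

theorem SM_SM (S : Std A b d) [Finite A] (hA : Nat.card A ≤ 8) {g h : G} (hg : g ∈ SM A b d)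
    (hh : h ∈ SM A b d) : Commute g h := by
  rcases hh with ⟨x, hx, y, hy, z, hz, rfl⟩ | ⟨x, hx, y, hy, z, hz, rfl⟩
  · have h1 : ⁅g, W b d x y⁆ = 1 := commutatorElement_eq_one_iff_commute.2 (S.SM_W hA hg hx hy)
    have h2 := (SM_com hg hz).1
    have hW : W b d x y ∈ Subgroup.closure (Sb A b ∪ Sb A d) := W_cl hx hy
    refine comm_of_com (w := g) (p := W b d x y) (q := cj z b) ?_ ?_ ?_
      (S.ST_cl hA h2 hW) (S.ST_cl hA h2 (b_mem hz)) <;> rw [h1] <;> exact Commute.one_left _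
  · have h1 : ⁅g, W d b x y⁆ = 1 := by
      rw [S.W_swap hx hy]
      exact commutatorElement_eq_one_iff_commute.2 (S.SM_W hA hg hx hy)
    have h2 := (SM_com hg hz).2
    have hW : W d b x y ∈ Subgroup.closure (Sb A b ∪ Sb A d) := by
      rw [← cl_symm]
      exact W_cl hx hy
    refine comm_of_com (w := g) (p := W d b x y) (q := cj z d) ?_ ?_ ?_
      (S.ST_cl hA h2 hW) (S.ST_cl hA h2 (d_mem hz)) <;> rw [h1] <;> exact Commute.one_left _

/-- conjugates of the elements `N` and of their commutators under the generators -/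
theorem R2_conj (S : Std A b d) [Finite A] (hA : Nat.card A ≤ 8) :
    ∀ c ∈ Sb A b ∪ Sb A d, ∀ r ∈ SM A b d ∪ ST A b d,
      c * r * c⁻¹ ∈ Subgroup.closure (SM A b d ∪ ST A b d) := by
  have hcs : ∀ c ∈ Sb A b ∪ Sb A d, c * c = 1 := by
    rintro _ (⟨u, hu, rfl⟩ | ⟨u, hu, rfl⟩)
    · exact cj_sq (S.sq u hu) S.hb
    · exact cj_sq (S.sq u hu) S.hd
  intro c hc r hr
  rcases hr with hr | hr
  · have e : c * r * c⁻¹ = ⁅c, r⁆ * r := by
      rw [commutatorElement_def]; group
    have h1 : ⁅c, r⁆ ∈ ST A b d := by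
      rw [com_symm S.H (hcs c hc) (S.SM_sq r hr)]
      rcases hc with ⟨u, hu, rfl⟩ | ⟨u, hu, rfl⟩
      · exact (SM_com hr hu).1
      · exact (SM_com hr hu).2
    rw [e]
    exact Subgroup.mul_mem _ (Subgroup.subset_closure (Or.inr h1))
      (Subgroup.subset_closure (Or.inl hr))
  · have h := S.ST_cl hA hr (Subgroup.subset_closure hc)
    rw [← h.eq, mul_assoc, mul_inv_cancel, mul_one]
    exact Subgroup.subset_closure (Or.inr hr)

theorem R2_norm (S : Std A b d) [Finite A] (hA : Nat.card A ≤ 8) :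
    Subgroup.closure (Sb A b ∪ Sb A d) ≤
      Subgroup.normalizer (Subgroup.closure (SM A b d ∪ ST A b d) : Set G) := by
  refine normalizes ?_ (S.R2_conj hA)
  rintro _ (⟨u, hu, rfl⟩ | ⟨u, hu, rfl⟩)
  · exact cj_sq (S.sq u hu) S.hb
  · exact cj_sq (S.sq u hu) S.hd

theorem W_com (S : Std A b d) {x y u : G} (hx : x ∈ A) (hy : y ∈ A) (hu : u ∈ A) :
    ⁅W b d x y, cj u b⁆ ∈ SM A b d ∧ ⁅W b d x y, cj u d⁆ ∈ SM A b d := by
  refine ⟨Or.inl ⟨x, hx, y, hy, u, hu, rfl⟩, Or.inr ⟨x, hx, y, hy, u, hu, ?_⟩⟩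
  unfold N
  rw [S.W_swap hx hy]

theorem WW_mem (S : Std A b d) [Finite A] (hA : Nat.card A ≤ 8) {x y u v : G} (hx : x ∈ A)
    (hy : y ∈ A) (hu : u ∈ A) (hv : v ∈ A) :
    ⁅W b d x y, W b d u v⁆ ∈ Subgroup.closure (SM A b d ∪ ST A b d) := by
  have hn := S.R2_norm hA
  have hp : cj u b ∈ Subgroup.closure (Sb A b ∪ Sb A d) := b_mem hu
  have hq : cj v d ∈ Subgroup.closure (Sb A b ∪ Sb A d) := d_mem hv
  have h1 : ⁅W b d x y, cj u b⁆ ∈ Subgroup.closure (SM A b d ∪ ST A b d) :=
    Subgroup.subset_closure (Or.inl (S.W_com hx hy hu).1)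
  have h2 : ⁅W b d x y, cj v d⁆ ∈ Subgroup.closure (SM A b d ∪ ST A b d) :=
    Subgroup.subset_closure (Or.inl (S.W_com hx hy hv).2)
  have conj : ∀ k ∈ Subgroup.closure (Sb A b ∪ Sb A d),
      ∀ c ∈ Subgroup.closure (SM A b d ∪ ST A b d),
      k * c * k⁻¹ ∈ Subgroup.closure (SM A b d ∪ ST A b d) := fun k hk c hc =>
    (Subgroup.mem_normalizer_iff.1 (hn hk) c).1 hc
  show ⁅W b d x y, ⁅cj u b, cj v d⁆⁆ ∈ _
  generalize W b d x y = w at h1 h2 ⊢
  generalize cj u b = p at h1 hp ⊢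
  generalize cj v d = q at h2 hq ⊢
  have e : ⁅w, ⁅p, q⁆⁆ = ⁅w, p⁆ * (p * ⁅w, q⁆ * p⁻¹) *
      ((p * q * p⁻¹) * ⁅w, p⁆⁻¹ * (p * q * p⁻¹)⁻¹) * (⁅p, q⁆ * ⁅w, q⁆⁻¹ * ⁅p, q⁆⁻¹) := by
    simp only [commutatorElement_def]
    group
  rw [e]
  refine Subgroup.mul_mem _ (Subgroup.mul_mem _ (Subgroup.mul_mem _ h1 (conj p hp _ h2))
    (conj _ ?_ _ (Subgroup.inv_mem _ h1))) (conj _ ?_ _ (Subgroup.inv_mem _ h2))
  · exact Subgroup.mul_mem _ (Subgroup.mul_mem _ hp hq) (Subgroup.inv_mem _ hp)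
  · rw [commutatorElement_def]
    exact Subgroup.mul_mem _ (Subgroup.mul_mem _ (Subgroup.mul_mem _ hp hq)
      (Subgroup.inv_mem _ hp)) (Subgroup.inv_mem _ hq)

/-- the group generated by the conjugates of `b` and `d` is a finite `2`-group -/
theorem fin_V (S : Std A b d) [Finite A] (hA : Nat.card A ≤ 8) :
    Finite (Subgroup.closure (Sb A b ∪ Sb A d)) ∧
      IsPGroup 2 (Subgroup.closure (Sb A b ∪ Sb A d)) := by
  have hSTcl : ∀ g ∈ ST A b d, g ∈ Subgroup.closure (Sb A b ∪ Sb A d) := by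
    have h1 : ∀ n ∈ Subgroup.closure (Sb A b ∪ Sb A d), ∀ c ∈ Subgroup.closure (Sb A b ∪ Sb A d),
        ⁅n, c⁆ ∈ Subgroup.closure (Sb A b ∪ Sb A d) := by
      intro n hn c hc
      rw [commutatorElement_def]
      exact Subgroup.mul_mem _ (Subgroup.mul_mem _ (Subgroup.mul_mem _ hn hc)
        (Subgroup.inv_mem _ hn)) (Subgroup.inv_mem _ hc)
    rintro _ (⟨x, hx, y, hy, z, hz, u, hu, rfl | rfl⟩ | ⟨x, hx, y, hy, z, hz, u, hu, rfl | rfl⟩)
    · exact h1 _ (SM_cl (Or.inl ⟨x, hx, y, hy, z, hz, rfl⟩)) _ (b_mem hu)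
    · exact h1 _ (SM_cl (Or.inl ⟨x, hx, y, hy, z, hz, rfl⟩)) _ (d_mem hu)
    · exact h1 _ (SM_cl (Or.inr ⟨x, hx, y, hy, z, hz, rfl⟩)) _ (d_mem hu)
    · exact h1 _ (SM_cl (Or.inr ⟨x, hx, y, hy, z, hz, rfl⟩)) _ (b_mem hu)
  have hWcl : ∀ g ∈ SW A b d, g ∈ Subgroup.closure (Sb A b ∪ Sb A d) := by
    rintro _ ⟨x, hx, y, hy, rfl⟩
    exact W_cl hx hy
  -- stage 1
  have k1 : Finite (Subgroup.closure (ST A b d)) ∧ IsPGroup 2 (Subgroup.closure (ST A b d)) :=
    fin_closure (ST1_fin.union ST1_fin) (fun x hx y hy => S.ST_cl hA hx (hSTcl y hy)) S.ST_sq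
  -- stage 2
  have k2 := stage k1 (S := SM A b d) (SN_fin.union SN_fin) S.SM_sq (by
    intro s hs r hr
    rw [← (S.ST_cl hA hr (SM_cl hs)).eq, mul_assoc, mul_inv_cancel, mul_one]
    exact Subgroup.subset_closure hr) (by
    intro s hs s' hs'
    rw [commutatorElement_eq_one_iff_commute.2 (S.SM_SM hA hs hs')]
    exact Subgroup.one_mem _)
  -- stage 3
  have k3 := stage k2 (S := SW A b d) SW_fin (by
    rintro _ ⟨x, hx, y, hy, rfl⟩
    exact S.W_sq hx hy) (by
    rintro s hs r (hr | hr)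
    · obtain ⟨x, hx, y, hy, rfl⟩ := hs
      rw [← (S.SM_W hA hr hx hy).eq, mul_assoc, mul_inv_cancel, mul_one]
      exact Subgroup.subset_closure (Or.inl hr)
    · rw [← (S.ST_cl hA hr (hWcl s hs)).eq, mul_assoc, mul_inv_cancel, mul_one]
      exact Subgroup.subset_closure (Or.inr hr)) (by
    rintro _ ⟨x, hx, y, hy, rfl⟩ _ ⟨u, hu, v, hv, rfl⟩
    exact S.WW_mem hA hx hy hu hv)
  -- stage 4
  have k4 := stage k3 (S := Sb A b ∪ Sb A d) (Sb_fin.union Sb_fin) (by
    rintro _ (⟨u, hu, rfl⟩ | ⟨u, hu, rfl⟩)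
    · exact cj_sq (S.sq u hu) S.hb
    · exact cj_sq (S.sq u hu) S.hd) (by
    rintro c hc r (hr | hr)
    · obtain ⟨x, hx, y, hy, rfl⟩ := hr
      have e : c * W b d x y * c⁻¹ = ⁅c, W b d x y⁆ * W b d x y := by
        rw [commutatorElement_def]; group
      have h1 : ⁅c, W b d x y⁆ ∈ SM A b d := by
        rcases hc with ⟨u, hu, rfl⟩ | ⟨u, hu, rfl⟩
        · rw [com_symm S.H (cj_sq (S.sq u hu) S.hb) (S.W_sq hx hy)]
          exact (S.W_com hx hy hu).1
        · rw [com_symm S.H (cj_sq (S.sq u hu) S.hd) (S.W_sq hx hy)]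
          exact (S.W_com hx hy hu).2
      rw [e]
      exact Subgroup.mul_mem _ (Subgroup.subset_closure (Or.inr (Or.inl h1)))
        (Subgroup.subset_closure (Or.inl ⟨x, hx, y, hy, rfl⟩))
    · exact Subgroup.closure_mono Set.subset_union_right (S.R2_conj hA c hc r hr)) (by
    rintro _ (⟨x, hx, rfl⟩ | ⟨x, hx, rfl⟩) _ (⟨y, hy, rfl⟩ | ⟨y, hy, rfl⟩)
    · rw [commutatorElement_eq_one_iff_commute.2 (S.bb hx hy)]
      exact Subgroup.one_mem _
    · exact Subgroup.subset_closure (Or.inl ⟨x, hx, y, hy, rfl⟩)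
    · exact Subgroup.subset_closure (Or.inl ⟨x, hx, y, hy, S.W_swap hx hy⟩)
    · rw [commutatorElement_eq_one_iff_commute.2 (S.symm.bb hx hy)]
      exact Subgroup.one_mem _)
  have hle : Subgroup.closure (Sb A b ∪ Sb A d) ≤
      Subgroup.closure (Sb A b ∪ Sb A d ∪ (SW A b d ∪ (SM A b d ∪ ST A b d))) :=
    Subgroup.closure_mono Set.subset_union_left
  obtain ⟨h1, h2⟩ := k4
  exact ⟨Set.Finite.to_subtype ((Set.toFinite _).subset hle), h2.to_le hle⟩

/-- an elementary abelian group `A` of order at most eight together with the conjugates of two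
commuting involutions generates a finite `2`-group -/
theorem main8 (S : Std A b d) [Finite A] (hA : Nat.card A ≤ 8) :
    Finite (A ⊔ Subgroup.closure (Sb A b ∪ Sb A d) : Subgroup G) ∧
      IsPGroup 2 (A ⊔ Subgroup.closure (Sb A b ∪ Sb A d) : Subgroup G) := by
  have kA : Finite A ∧ IsPGroup 2 A := by
    refine ⟨inferInstance, fun x => ⟨1, Subtype.ext ?_⟩⟩
    have : (x : G) ^ 2 = 1 := by
      rw [pow_two]
      exact S.sq x x.2
    simpa using this
  exact sup_fin (S.fin_V hA) kA S.n4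

end Std

end Pool.Agent.Lib.KFG
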