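import Mathlib
import Pool.Agent.Lib.KFG.Basic

/-!
# Two commuting pairs of involutions, with the order of the derived part as a parameter
-/

open scoped commutatorElement

namespace Pool.Agent.Lib.KFG

namespace Std

variable {G : Type*} [Group G] {A : Subgroup G} {b d : G}

theorem W_shift (S : Std A b d) {k x y : G} (hk : k ∈ A) (hx : x ∈ A) (hy : y ∈ A) :
    cj k (W b d x y) = W b d (k * x) (k * y) := by
  unfold W
  rw [cj_com (S.sq k hk), cj_cj (S.comm hk hx), cj_cj (S.comm hk hy)]

/-- the order of `⟨A, b, d⟩` -/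
theorem main_m (S : Std A b d) [Finite A] (hA4 : Nat.card A ≤ 4) {m : ℕ}
    (hm : Nat.card (Subgroup.closure (S0 A b d)) ≤ m) :
    (Finite (A ⊔ Subgroup.closure (Sb A b ∪ Sb A d) : Subgroup G) ∧
      IsPGroup 2 (A ⊔ Subgroup.closure (Sb A b ∪ Sb A d) : Subgroup G)) ∧
      Nat.card (A ⊔ Subgroup.closure (Sb A b ∪ Sb A d) : Subgroup G) ≤
        4 * (2 ^ 4 * (2 ^ 4 * m)) := by
  have k1 := fin_closure S0_fin (S.S0_comm hA4) S.S0_sq
  have hSb : ∀ g ∈ Sb A b, g * g = 1 := by
    rintro _ ⟨x, hx, rfl⟩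
    exact cj_sq (S.sq x hx) S.hb
  have hSd : ∀ g ∈ Sb A d, g * g = 1 := by
    rintro _ ⟨x, hx, rfl⟩
    exact cj_sq (S.sq x hx) S.hd
  have kb : Finite (Subgroup.closure (Sb A b)) ∧ IsPGroup 2 (Subgroup.closure (Sb A b)) := by
    refine fin_closure Sb_fin ?_ hSb
    rintro _ ⟨x, hx, rfl⟩ _ ⟨y, hy, rfl⟩
    exact S.bb hx hy
  have kd : Finite (Subgroup.closure (Sb A d)) ∧ IsPGroup 2 (Subgroup.closure (Sb A d)) := by
    refine fin_closure Sb_fin ?_ hSd
    rintro _ ⟨x, hx, rfl⟩ _ ⟨y, hy, rfl⟩
    exact S.symm.bb hx hy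
  have k2 := sup_fin k1 kb (S.n2 hA4)
  have c2 : Nat.card (Subgroup.closure (Sb A b) ⊔ Subgroup.closure (S0 A b d) : Subgroup G) ≤
      2 ^ 4 * m := by
    have := k1.1
    have := kb.1
    exact (sup_card (S.n2 hA4)).trans (Nat.mul_le_mul (S.Sb_card hA4) hm)
  rw [← Subgroup.closure_union] at k2 c2
  have k3 := sup_fin k2 kd (S.n3 hA4)
  have c3 : Nat.card (Subgroup.closure (Sb A d) ⊔
      Subgroup.closure (Sb A b ∪ S0 A b d) : Subgroup G) ≤ 2 ^ 4 * (2 ^ 4 * m) := by
    have := k2.1
    have := kd.1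
    exact (sup_card (S.n3 hA4)).trans (Nat.mul_le_mul (S.symm.Sb_card hA4) c2)
  rw [← Subgroup.closure_union] at k3 c3
  have hle : Subgroup.closure (Sb A b ∪ Sb A d) ≤
      Subgroup.closure (Sb A d ∪ (Sb A b ∪ S0 A b d)) := by
    refine Subgroup.closure_mono ?_
    rintro g (hg | hg)
    · exact Or.inr (Or.inl hg)
    · exact Or.inl hg
  have k4 : Finite (Subgroup.closure (Sb A b ∪ Sb A d)) ∧
      IsPGroup 2 (Subgroup.closure (Sb A b ∪ Sb A d)) := by
    obtain ⟨h1, h2⟩ := k3
    refine ⟨?_, h2.to_le hle⟩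
    exact Set.Finite.to_subtype ((Set.toFinite _).subset hle)
  have c4 : Nat.card (Subgroup.closure (Sb A b ∪ Sb A d)) ≤ 2 ^ 4 * (2 ^ 4 * m) := by
    have := k3.1
    exact (Nat.card_mono (Set.toFinite _) hle).trans c3
  have kA : Finite A ∧ IsPGroup 2 A := by
    refine ⟨inferInstance, fun x => ⟨1, Subtype.ext ?_⟩⟩
    have : (x : G) ^ 2 = 1 := by
      rw [pow_two]
      exact S.sq x x.2
    simpa using this
  refine ⟨sup_fin k4 kA S.n4, ?_⟩
  have := k4.1
  exact (sup_card S.n4).trans (Nat.mul_le_mul hA4 c4)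

/-- the order of `⟨A, b, d⟩` if the conjugates of `d` are generated by three of them modulo the
rest -/
theorem main_three (S : Std A b d) [Finite A] (hA4 : Nat.card A ≤ 4) {m : ℕ}
    (hm : Nat.card (Subgroup.closure (S0 A b d)) ≤ m) (T : Finset G) (hT : (T : Set G) ⊆ Sb A d)
    (hT3 : T.card ≤ 3)
    (hcov : Sb A d ⊆ Subgroup.closure ((T : Set G) ∪ (Sb A b ∪ S0 A b d))) :
    Nat.card (A ⊔ Subgroup.closure (Sb A b ∪ Sb A d) : Subgroup G) ≤
        4 * (2 ^ 3 * (2 ^ 4 * m)) := by
  have k1 := fin_closure S0_fin (S.S0_comm hA4) S.S0_sq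
  have hSb : ∀ g ∈ Sb A b, g * g = 1 := by
    rintro _ ⟨x, hx, rfl⟩
    exact cj_sq (S.sq x hx) S.hb
  have hTsq : ∀ g ∈ T, g * g = 1 := by
    intro g hg
    obtain ⟨x, hx, rfl⟩ := hT (Finset.mem_coe.2 hg)
    exact cj_sq (S.sq x hx) S.hd
  have hTc : ∀ x ∈ T, ∀ y ∈ T, Commute x y := by
    intro x hx y hy
    obtain ⟨u, hu, rfl⟩ := hT (Finset.mem_coe.2 hx)
    obtain ⟨v, hv, rfl⟩ := hT (Finset.mem_coe.2 hy)
    exact S.symm.bb hu hv
  have kb : Finite (Subgroup.closure (Sb A b)) ∧ IsPGroup 2 (Subgroup.closure (Sb A b)) := by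
    refine fin_closure Sb_fin ?_ hSb
    rintro _ ⟨x, hx, rfl⟩ _ ⟨y, hy, rfl⟩
    exact S.bb hx hy
  have kT : Finite (Subgroup.closure (T : Set G)) ∧ IsPGroup 2 (Subgroup.closure (T : Set G)) :=
    fin_closure (Finset.finite_toSet T) hTc hTsq
  have cT := card_closure 3 T hT3 hTc hTsq
  have k2 := sup_fin k1 kb (S.n2 hA4)
  have c2 : Nat.card (Subgroup.closure (Sb A b) ⊔ Subgroup.closure (S0 A b d) : Subgroup G) ≤
      2 ^ 4 * m := by
    have := k1.1
    have := kb.1
    exact (sup_card (S.n2 hA4)).trans (Nat.mul_le_mul (S.Sb_card hA4) hm)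
  rw [← Subgroup.closure_union] at k2 c2
  have n3T : Subgroup.closure (T : Set G) ≤
      Subgroup.normalizer (Subgroup.closure (Sb A b ∪ S0 A b d) : Set G) :=
    (Subgroup.closure_mono hT).trans (S.n3 hA4)
  have k3 := sup_fin k2 kT n3T
  have c3 : Nat.card (Subgroup.closure (T : Set G) ⊔
      Subgroup.closure (Sb A b ∪ S0 A b d) : Subgroup G) ≤ 2 ^ 3 * (2 ^ 4 * m) := by
    have := k2.1
    have := kT.1
    exact (sup_card n3T).trans (Nat.mul_le_mul cT c2)
  rw [← Subgroup.closure_union] at k3 c3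
  have hle : Subgroup.closure (Sb A b ∪ Sb A d) ≤
      Subgroup.closure ((T : Set G) ∪ (Sb A b ∪ S0 A b d)) := by
    rw [Subgroup.closure_le]
    rintro g (hg | hg)
    · exact Subgroup.subset_closure (Or.inr (Or.inl hg))
    · exact hcov hg
  have f4 : Finite (Subgroup.closure (Sb A b ∪ Sb A d)) := by
    have h1 : Finite (Subgroup.closure ((T : Set G) ∪ (Sb A b ∪ S0 A b d)) : Subgroup G) := k3.1
    have h3 : ((Subgroup.closure ((T : Set G) ∪ (Sb A b ∪ S0 A b d)) : Subgroup G) :
      Set G).Finite := Set.toFinite _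
    exact (h3.subset hle).to_subtype
  have c4 : Nat.card (Subgroup.closure (Sb A b ∪ Sb A d)) ≤ 2 ^ 3 * (2 ^ 4 * m) := by
    have := k3.1
    exact (Nat.card_mono (Set.toFinite _) hle).trans c3
  exact (sup_card S.n4).trans (Nat.mul_le_mul hA4 c4)

/-- if `w_{a,c} = 1` and `w_{1,a} = w_{1,c}` there is only one nontrivial commutator -/
theorem S0_two (S : Std A b d) [Finite A] {a c : G} (ha : a ∈ A)
    (hc : c ∈ A) (hA : ∀ x ∈ A, x = 1 ∨ x = a ∨ x = c ∨ x = a * c) (h1 : W b d a c = 1)
    (h2 : W b d 1 a = W b d 1 c) : Nat.card (Subgroup.closure (S0 A b d)) ≤ 2 := by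
  classical
  have ho : (1 : G) ∈ A := A.one_mem
  have hac : a * c ∈ A := A.mul_mem ha hc
  have haa := S.sq a ha
  have hcc := S.sq c hc
  have hca : c * a = a * c := (S.comm hc ha).eq
  have w1 : W b d 1 (a * c) = 1 := by
    have h := S.W_shift ha ha hc
    rw [h1, haa] at h
    rw [← h]
    unfold cj
    rw [mul_one, haa]
  have w2 : W b d a (a * c) = W b d 1 a := by
    have h := S.W_shift ha ho hc
    rw [← h2, S.W_shift ha ho ha, mul_one, haa] at h
    rw [← h]
    exact S.W_symm ha ho
  have w3 : W b d c (a * c) = W b d 1 a := by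
    have h := S.W_shift hc ho ha
    rw [h2, S.W_shift hc ho hc, mul_one, hcc, hca] at h
    rw [← h, h2]
    exact S.W_symm hc ho
  have n1 : N b d 1 a c = 1 := by
    have hn : N b d a c 1 = 1 := by
      unfold N
      rw [h1, commutatorElement_one_left]
    exact (S.N_perm ha hc ho hn).2.2.2.2.2
  have n2 : N d b 1 a c = 1 := by
    have hn : N d b a c 1 = 1 := by
      unfold N
      rw [S.W_swap ha hc, h1, commutatorElement_one_left]
    exact (S.symm.N_perm ha hc ho hn).2.2.2.2.2
  have hST : S0 A b d ⊆ Subgroup.closure (({W b d 1 a} : Finset G) : Set G) := by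
    have m1 : W b d 1 a ∈ Subgroup.closure (({W b d 1 a} : Finset G) : Set G) :=
      Subgroup.subset_closure (by simp)
    have m2 : W b d 1 c ∈ Subgroup.closure (({W b d 1 a} : Finset G) : Set G) := by
      rw [← h2]; exact m1
    have m3 : W b d 1 (a * c) ∈ Subgroup.closure (({W b d 1 a} : Finset G) : Set G) := by
      rw [w1]; exact Subgroup.one_mem _
    have m4 : W b d a c ∈ Subgroup.closure (({W b d 1 a} : Finset G) : Set G) := by
      rw [h1]; exact Subgroup.one_mem _
    have m5 : W b d a (a * c) ∈ Subgroup.closure (({W b d 1 a} : Finset G) : Set G) := by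
      rw [w2]; exact m1
    have m6 : W b d c (a * c) ∈ Subgroup.closure (({W b d 1 a} : Finset G) : Set G) := by
      rw [w3]; exact m1
    rintro g (⟨x, hx, y, hy, rfl⟩ | ⟨x, hx, y, hy, z, hz, rfl⟩ | ⟨x, hx, y, hy, z, hz, rfl⟩)
    · have hs := S.W_symm hx hy
      have ht : x = y → W b d x y = 1 := by
        rintro rfl
        exact S.W_self hx
      show W b d x y ∈ Subgroup.closure (({W b d 1 a} : Finset G) : Set G)
      generalize Subgroup.closure (({W b d 1 a} : Finset G) : Set G) = Z at *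
      rcases hA x hx with rfl | rfl | rfl | rfl <;> rcases hA y hy with rfl | rfl | rfl | rfl <;>
        first
        | assumption
        | (rw [hs]; assumption)
        | (rw [ht rfl]; exact Subgroup.one_mem _)
    · show N b d x y z ∈ Subgroup.closure (({W b d 1 a} : Finset G) : Set G)
      rcases S.N_case ha hc hA hx hy hz with h | h
      · rw [h]
        exact Subgroup.one_mem _
      · rw [h, n1]
        exact Subgroup.one_mem _
    · show N d b x y z ∈ Subgroup.closure (({W b d 1 a} : Finset G) : Set G)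
      rcases S.symm.N_case ha hc hA hx hy hz with h | h
      · rw [h]
        exact Subgroup.one_mem _
      · rw [h, n2]
        exact Subgroup.one_mem _
  have hle : Subgroup.closure (S0 A b d) ≤
      Subgroup.closure (({W b d 1 a} : Finset G) : Set G) := (Subgroup.closure_le _).2 hST
  have hsq : ∀ x ∈ ({W b d 1 a} : Finset G), x * x = 1 := by
    intro x hx
    rw [Finset.mem_singleton] at hx
    rw [hx]
    exact S.W_sq ho ha
  have hcm : ∀ x ∈ ({W b d 1 a} : Finset G), ∀ y ∈ ({W b d 1 a} : Finset G), Commute x y := by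
    intro x hx y hy
    rw [Finset.mem_singleton] at hx hy
    rw [hx, hy]
  have hcard := card_closure 1 {W b d 1 a} (by simp) hcm hsq
  have hfin := (fin_closure (Finset.finite_toSet {W b d 1 a}) hcm hsq).1
  exact (Nat.card_mono (Set.toFinite _) hle).trans (by simpa using hcard)

end Std

/-- the group generated by two commuting involutions -/
theorem pair_facts {G : Type*} [Group G] {a c : G} (ha : a * a = 1) (hc : c * c = 1)
    (hac : Commute a c) :
    Finite (Subgroup.closure {a, c} : Subgroup G) ∧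
      Nat.card (Subgroup.closure {a, c} : Subgroup G) ≤ 4 ∧
      (∀ x ∈ Subgroup.closure {a, c}, x = 1 ∨ x = a ∨ x = c ∨ x = a * c) ∧
      ∀ x ∈ Subgroup.closure {a, c}, x * x = 1 := by
  classical
  have step : ∀ x y : G, (x = 1 ∨ x = a ∨ x = c ∨ x = a * c) → (y = a ∨ y = c) →
      (x * y = 1 ∨ x * y = a ∨ x * y = c ∨ x * y = a * c) := by
    rintro x y (rfl | rfl | rfl | rfl) (rfl | rfl)
    · right; left; rw [one_mul]
    · right; right; left; rw [one_mul]
    · left; exact ha
    · right; right; right; rfl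
    · right; right; right; exact hac.symm.eq
    · left; exact hc
    · right; right; left
      calc y * c * y = y * (c * y) := by group
        _ = y * (y * c) := by rw [hac.symm.eq]
        _ = y * y * c := by group
        _ = c := by rw [ha, one_mul]
    · right; left; rw [mul_assoc, hc, mul_one]
  have key : ∀ x ∈ Subgroup.closure {a, c}, x = 1 ∨ x = a ∨ x = c ∨ x = a * c := by
    intro x hx
    induction hx using Subgroup.closure_induction_right with
    | one => exact Or.inl rfl
    | mul_right x hx y hy ih => exact step x y ih hy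
    | mul_inv_cancel x hx y hy ih =>
      have e : y⁻¹ = y := by
        rcases hy with rfl | hy
        · exact inv_eq ha
        · rw [Set.mem_singleton_iff] at hy
          rw [hy]
          exact inv_eq hc
      rw [e]
      exact step x y ih hy
  have hsub : ∀ x ∈ Subgroup.closure {a, c}, x ∈ ({1, a, c, a * c} : Finset G) := by
    intro x hx
    simpa only [Finset.mem_insert, Finset.mem_singleton] using key x hx
  have hfin : Finite (Subgroup.closure {a, c} : Subgroup G) :=
    ((Finset.finite_toSet _).subset hsub).to_subtype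
  refine ⟨hfin, ?_, key, ?_⟩
  · have h1 : Nat.card (Subgroup.closure {a, c} : Subgroup G) ≤
        Nat.card (({1, a, c, a * c} : Finset G) : Set G) :=
      Nat.card_mono (Finset.finite_toSet _) hsub
    refine h1.trans ?_
    rw [Nat.card_coe_set_eq, Set.ncard_coe_finset]
    exact Finset.card_le_four
  · intro x hx
    rcases key x hx with rfl | rfl | rfl | rfl
    · exact one_mul 1
    · exact ha
    · exact hc
    · exact mul_sq ha hc hac

/-- the relations caused by an involution `h` which exchanges `a`, `c` and `b`, `d` -/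
theorem swap_facts {G : Type*} [Group G] (H : Hyp G) {a b c d h : G} (ha : a * a = 1)
    (hb : b * b = 1) (hc : c * c = 1) (hd : d * d = 1) (hac : Commute a c) (hbd : Commute b d)
    (hh : h * h = 1) (h1 : h * a * h = c) (h2 : h * b * h = d) :
    W b d a c = 1 ∧ W b d 1 a = W b d 1 c := by
  obtain ⟨fA, cA, kA, sA⟩ := pair_facts ha hc hac
  have S : Std (Subgroup.closure {a, c}) b d := ⟨H, sA, hb, hd, hbd⟩
  have ma : a ∈ Subgroup.closure {a, c} := Subgroup.subset_closure (Or.inl rfl)
  have mo : (1 : G) ∈ Subgroup.closure {a, c} := Subgroup.one_mem _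
  have hconj : ∀ x y : G, h * (x * y) * h = h * x * h * (h * y * h) := by
    intro x y
    calc h * (x * y) * h = h * x * 1 * y * h := by group
      _ = h * x * (h * h) * y * h := by rw [hh]
      _ = h * x * h * (h * y * h) := by group
  have q1 : h * cj a b * h = cj c d := by
    unfold cj
    rw [hconj, hconj, h1, h2]
  have cb := cj_sq ha hb
  have cd := cj_sq hc hd
  have q2 : Commute (cj a b) (cj c d) := by
    rw [← q1]
    exact comm_conj H hh cb
  have e1 : ∀ x : G, cj 1 x = x := by
    intro x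
    simp [cj]
  have q3 : Commute (cj a b * b) (cj c d * d) := by
    have h3 := comm_conj H hh (g := cj a b * b) (mul_sq cb hb (by
      have := S.bb ma mo
      rwa [e1] at this))
    rwa [hconj, q1, h2] at h3
  refine ⟨commutatorElement_eq_one_iff_commute.2 q2, ?_⟩
  have h4 := key H cb hb cd hd q2 hbd q3
  rw [← S.W_swap mo ma]
  unfold W
  rw [e1, e1]
  exact h4.symm

theorem prod_form {G : Type*} [Group G] {a b c : G} (ha : a * a = 1) (hb : b * b = 1)
    (hc : c * c = 1) (hac : Commute a c) :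
    W c a 1 b = cj c b * cj (a * c) b * cj a b * b := by
  unfold W cj
  have hbab : b * a * b * (b * a * b) = 1 := conj_sq hb ha
  have h1c : 1 * c * 1 = c := by group
  rw [h1c, com_eq hc hbab]
  have e1 : c * a * c = a := by
    rw [hac.symm.eq, mul_assoc, hc, mul_one]
  have e2 : a * c * a = c := by
    rw [hac.eq, mul_assoc, ha, mul_one]
  symm
  calc c * b * c * (a * c * b * (a * c)) * (a * b * a) * b
      = c * b * (c * a * c) * b * (a * c * a) * b * a * b := by group
    _ = c * b * a * b * c * b * a * b := by rw [e1, e2]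
    _ = c * (b * a * b) * c * (b * a * b) := by group

end Pool.Agent.Lib.KFG
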